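import Pool.Agent.SplU.Pi

/-!
# Dual form of theorem `U` over any field of characteristic zero
-/

namespace Pool.Agent.SplU

open Polynomial Finset

/-- columns -/
abbrev DI (d : ℕ) : Type := (Σ j : Fin (d / 2 + 1), Fin (2 * d - 4 * (j : ℕ) + 1))

/-- rows: the points `(n - b, b)` -/
abbrev DT (d : ℕ) : Type := (Σ n : Fin (d + 1), Fin ((n : ℕ) + 1))

lemma card_DI (d : ℕ) : Fintype.card (DI d) = Fintype.card (DT d) := by
  rw [Fintype.card_sigma, Fintype.card_sigma]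
  simp only [Fintype.card_fin]
  rw [Fin.sum_univ_eq_sum_range (fun j => 2 * d - 4 * j + 1),
    Fin.sum_univ_eq_sum_range (fun n => n + 1), card_aux]

/-- the matrix of theorem `U` -/
noncomputable def UM (R : Type*) [Field R] (κ : ℚ) (σ d : ℕ) : Matrix (DT d) (DI d) R :=
  fun t js =>
    ((κ : R) + (((t.1 : ℕ) - (t.2 : ℕ) : ℕ) : R) + ((t.2 : ℕ) : R)) ^ (js.1 : ℕ) *
    (∏ l ∈ range (2 * (js.1 : ℕ)), ((3 + 2 * (((t.1 : ℕ) - (t.2 : ℕ) : ℕ) : R) +
      3 * ((t.2 : ℕ) : R)) + σ - 1 - l)) *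
    (3 + 2 * (((t.1 : ℕ) - (t.2 : ℕ) : ℕ) : R) + 3 * ((t.2 : ℕ) : R)) ^ (js.2 : ℕ)

lemma UM_inj (κ : ℚ) (σ d : ℕ) : Function.Injective (Matrix.mulVecLin (UM ℝ κ σ d)) := by
  classical
  let ka : DT d → ℝ := fun t => (κ : ℝ) + (((t.1 : ℕ) - (t.2 : ℕ) : ℕ) : ℝ) + ((t.2 : ℕ) : ℝ)
  let nn : DT d → ℝ := fun t => 3 + 2 * (((t.1 : ℕ) - (t.2 : ℕ) : ℕ) : ℝ) + 3 * ((t.2 : ℕ) : ℝ)
  let pol : (DI d → ℝ) → ℕ → ℝ[X] := fun c j =>
    if h : j < d / 2 + 1 then
      ∑ s : Fin (2 * d - 4 * j + 1), C (c ⟨⟨j, h⟩, s⟩) * X ^ (s : ℕ) else 0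
  have hpol : ∀ c (t : DT d), (Matrix.mulVecLin (UM ℝ κ σ d) c) t
      = ∑ j ∈ range (d / 2 + 1), ka t ^ j * (∏ l ∈ range (2 * j), (nn t + σ - 1 - l)) *
        (pol c j).eval (nn t) := by
    intro c t
    rw [Matrix.mulVecLin_apply, Matrix.mulVec, dotProduct, Fintype.sum_sigma,
      ← Fin.sum_univ_eq_sum_range (fun j => ka t ^ j * (∏ l ∈ range (2 * j), (nn t + σ - 1 - l)) *
        (pol c j).eval (nn t))]
    refine Finset.sum_congr rfl (fun j _ => ?_)
    simp only [pol, dif_pos j.2, eval_finsetSum, eval_mul, eval_C, eval_pow, eval_X,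
      Finset.mul_sum]
    refine Finset.sum_congr rfl (fun s _ => ?_)
    simp only [UM, ka, nn]
    ring
  have hdeg : ∀ c, ∀ j ≤ d / 2, (pol c j).natDegree + 4 * j ≤ 2 * d := by
    intro c j hj
    have h1 : (pol c j).natDegree ≤ 2 * d - 4 * j := by
      simp only [pol, dif_pos (Nat.lt_succ_of_le hj)]
      apply natDegree_sum_le_of_forall_le
      intro s _
      refine (natDegree_C_mul_X_pow_le _ _).trans ?_
      have := s.2
      omega
    omega
  rw [← LinearMap.ker_eq_bot, LinearMap.ker_eq_bot']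
  intro c hc
  have h0 := thmUs κ σ d (pol c) (hdeg c) (by
    intro a b hab
    have h1 := hpol c ⟨⟨a + b, by omega⟩, ⟨b, by simp only; omega⟩⟩
    rw [hc] at h1
    simp only [ka, nn, Nat.add_sub_cancel] at h1
    rw [← h1]; rfl)
  funext js
  obtain ⟨j, s⟩ := js
  have h1 := h0 j (by have := j.2; omega)
  have h2 : (pol c j).coeff s = c ⟨j, s⟩ := by
    simp only [pol, dif_pos j.2, finsetSum_coeff, coeff_C_mul, coeff_X_pow]
    rw [Finset.sum_eq_single s]
    · simp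
    · intro b _ hb
      rw [if_neg (fun h => hb (Fin.ext h.symm)), mul_zero]
    · intro h; exact absurd (Finset.mem_univ _) h
  rw [← h2, h1, coeff_zero]; rfl

lemma UM_map (R : Type*) [Field R] [CharZero R] (κ : ℚ) (σ d : ℕ) :
    (UM ℚ κ σ d).map (algebraMap ℚ R) = UM R κ σ d := by
  ext t js
  simp only [Matrix.map_apply, UM]
  simp only [map_mul, map_pow, map_prod, map_add, map_sub, map_natCast, map_one, map_ofNat]
  simp

/-- the identification of the two index sets -/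
noncomputable def UE (d : ℕ) : DI d ≃ DT d := Fintype.equivOfCardEq (card_DI d)

/-- the square matrix -/
noncomputable def UN (R : Type*) [Field R] (κ : ℚ) (σ d : ℕ) : Matrix (DT d) (DT d) R :=
  (UM R κ σ d).submatrix id (UE d).symm

lemma UN_map (R : Type*) [Field R] [CharZero R] (κ : ℚ) (σ d : ℕ) :
    (UN ℚ κ σ d).map (algebraMap ℚ R) = UN R κ σ d := by
  unfold UN
  rw [← Matrix.submatrix_map, UM_map]

lemma UN_det_real (κ : ℚ) (σ d : ℕ) : (UN ℝ κ σ d).det ≠ 0 := by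
  have h1 : Function.Injective (UN ℝ κ σ d).mulVec := by
    intro u v huv
    have h2 : Matrix.mulVec (UM ℝ κ σ d) (u ∘ UE d) = Matrix.mulVec (UM ℝ κ σ d) (v ∘ UE d) := by
      funext t
      have := congrFun huv t
      simp only [UN, Matrix.mulVec, dotProduct, Matrix.submatrix_apply, id] at this ⊢
      rw [← (UE d).sum_comp, ← (UE d).sum_comp] at this
      simpa using this
    have h3 := UM_inj κ σ d (a₁ := u ∘ UE d) (a₂ := v ∘ UE d) (by simpa using h2)
    funext t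
    have := congrFun h3 ((UE d).symm t)
    simpa using this
  have h2 := (Matrix.mulVec_injective_iff_isUnit).1 h1
  exact ((Matrix.isUnit_iff_isUnit_det _).1 h2).ne_zero

lemma UN_det (K : Type*) [Field K] [CharZero K] (κ : ℚ) (σ d : ℕ) : (UN K κ σ d).det ≠ 0 := by
  have hNQ : (UN ℚ κ σ d).det ≠ 0 := by
    intro h0
    apply UN_det_real κ σ d
    rw [← UN_map, ← RingHom.mapMatrix_apply, ← RingHom.map_det, h0, map_zero]
  rw [← UN_map, ← RingHom.mapMatrix_apply, ← RingHom.map_det]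
  intro h0
  exact hNQ ((map_eq_zero _).1 h0)

/-- **Dual form of theorem `U`** over any field of characteristic zero. -/
theorem dualU (K : Type*) [Field K] [CharZero K] (κ : ℚ) (σ d : ℕ) (x : ℕ → ℕ → K)
    (h : ∀ i n : ℕ, 2 * i ≤ d → n + 4 * i ≤ 2 * d →
      ∑ ab ∈ (range (d + 1) ×ˢ range (d + 1)).filter (fun ab => ab.1 + ab.2 ≤ d),
        x ab.1 ab.2 * (((κ : K) + ab.1 + ab.2) ^ i *
          (∏ l ∈ range (2 * i), ((3 + 2 * ab.1 + 3 * ab.2 : K) + σ - 1 - l)) *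
          (3 + 2 * ab.1 + 3 * ab.2 : K) ^ n) = 0) :
    ∀ a b : ℕ, a + b ≤ d → x a b = 0 := by
  classical
  let u : DT d → K := fun t => x ((t.1 : ℕ) - (t.2 : ℕ)) t.2
  have hu : Matrix.vecMul u (UN K κ σ d) = 0 := by
    funext t
    rw [Matrix.vecMul, dotProduct]
    simp only [UN, Matrix.submatrix_apply, id, Pi.zero_apply]
    set js := (UE d).symm t
    have h1 := h js.1 js.2 (by have := js.1.2; omega) (by have := js.2.2; have := js.1.2; omega)
    rw [← h1]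
    refine Finset.sum_nbij' (fun t : DT d => (((t.1 : ℕ) - (t.2 : ℕ), (t.2 : ℕ)) : ℕ × ℕ))
      (fun ab => if hab : ab.1 + ab.2 ≤ d then
        (⟨⟨ab.1 + ab.2, by omega⟩, ⟨ab.2, by simp only; omega⟩⟩ : DT d)
        else ⟨⟨0, by omega⟩, ⟨0, by simp⟩⟩) ?_ ?_ ?_ ?_ ?_
    · intro t _
      rw [Finset.mem_filter, Finset.mem_product, Finset.mem_range, Finset.mem_range]
      have h1 := t.1.2
      have h2 := t.2.2
      simp only
      omega
    · intro ab _; exact Finset.mem_univ _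
    · intro t _
      have h1 := t.1.2
      have h2 := t.2.2
      simp only
      rw [dif_pos (by omega)]
      obtain ⟨⟨n, hn⟩, ⟨b, hb⟩⟩ := t
      simp only at hb ⊢
      have : n - b + b = n := by omega
      refine Sigma.ext (Fin.ext this) ?_
      exact (Fin.heq_ext_iff (by simp only; omega)).2 rfl
    · intro ab hab
      rw [Finset.mem_filter] at hab
      simp only
      rw [dif_pos hab.2]
      simp
    · intro t _
      rfl
  have hu0 : u = 0 := by
    have h1 : Function.Injective (UN K κ σ d).vecMul := by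
      rw [Matrix.vecMul_injective_iff_isUnit, Matrix.isUnit_iff_isUnit_det]
      exact isUnit_iff_ne_zero.2 (UN_det K κ σ d)
    apply h1
    simp only [hu, Matrix.zero_vecMul]
  intro a b hab
  have := congrFun hu0 ⟨⟨a + b, by omega⟩, ⟨b, by simp only; omega⟩⟩
  simpa [u] using this

/-- the case `κ = 1` of `dualU` -/
theorem dualU1 (K : Type*) [Field K] [CharZero K] (σ d : ℕ) (x : ℕ → ℕ → K)
    (h : ∀ i n : ℕ, 2 * i ≤ d → n + 4 * i ≤ 2 * d →
      ∑ ab ∈ (range (d + 1) ×ˢ range (d + 1)).filter (fun ab => ab.1 + ab.2 ≤ d),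
        x ab.1 ab.2 * ((1 + ab.1 + ab.2 : K) ^ i *
          (∏ l ∈ range (2 * i), ((3 + 2 * ab.1 + 3 * ab.2 : K) + σ - 1 - l)) *
          (3 + 2 * ab.1 + 3 * ab.2 : K) ^ n) = 0) :
    ∀ a b : ℕ, a + b ≤ d → x a b = 0 := by
  refine dualU K 1 σ d x (fun i n hi hn => ?_)
  rw [← h i n hi hn]
  refine Finset.sum_congr rfl (fun ab _ => ?_)
  simp

/-- a functional which kills `N^{\underline w}`, `v ≤ w ≤ v1`, kills
`N^{\underline{v}} (N + c)^l`, `v + l ≤ v1` -/
lemma fall_spanK {R : Type*} [CommRing R] {ι : Type*} (s : Finset ι) (x : ι → R) (N : ι → R)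
    (c : R) (v1 : ℕ) :
    ∀ (l v : ℕ), v + l ≤ v1 →
    (∀ w, v ≤ w → w ≤ v1 → ∑ i ∈ s, x i * ∏ t ∈ range w, (N i - t) = 0) →
    ∑ i ∈ s, x i * ((∏ t ∈ range v, (N i - t)) * (N i + c) ^ l) = 0 := by
  intro l
  induction l with
  | zero =>
    intro v hv h
    simpa using h v le_rfl (by omega)
  | succ l ih =>
    intro v hv h
    have h1 := ih (v + 1) (by omega) (fun w hw hw' => h w (by omega) hw')
    have h2 := ih v (by omega) h
    have e : ∑ i ∈ s, x i * ((∏ t ∈ range v, (N i - t)) * (N i + c) ^ (l + 1))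
        = ∑ i ∈ s, x i * ((∏ t ∈ range (v + 1), (N i - t)) * (N i + c) ^ l)
          + (v + c) * ∑ i ∈ s, x i * ((∏ t ∈ range v, (N i - t)) * (N i + c) ^ l) := by
      rw [Finset.mul_sum, ← Finset.sum_add_distrib]
      refine Finset.sum_congr rfl (fun i _ => ?_)
      rw [Finset.prod_range_succ]
      ring
    rw [e, h1, h2]; simp

/-- **Theorem `U` with falling factorials.** Points `(j, N)`, `j = d - α - β`,
`N = 2 + a + 2 α + 3 β`, `α + β ≤ d`. A functional which kills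
`j(j-1)…(j-i+1) N(N-1)…(N-m+1)` for `2 i ≤ m ≤ 2 d - 2 i` is zero. -/
theorem dualFall (K : Type*) [Field K] [CharZero K] (a d : ℕ) (x : ℕ → ℕ → K)
    (h : ∀ i m : ℕ, 2 * i ≤ m → m + 2 * i ≤ 2 * d →
      ∑ ab ∈ (range (d + 1) ×ˢ range (d + 1)).filter (fun ab => ab.1 + ab.2 ≤ d),
        x ab.1 ab.2 * ((∏ t ∈ range i, ((d : K) - ab.1 - ab.2 - t)) *
          ∏ t ∈ range m, ((2 + a + 2 * ab.1 + 3 * ab.2 : K) - t)) = 0) :
    ∀ α β : ℕ, α + β ≤ d → x α β = 0 := by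
  set S := (range (d + 1) ×ˢ range (d + 1)).filter (fun ab : ℕ × ℕ => ab.1 + ab.2 ≤ d) with hS
  have h2 : ∀ i m : ℕ, 2 * i ≤ m → m + 2 * i ≤ 2 * d →
      ∑ ab ∈ S, x ab.1 ab.2 * (((d : K) - ab.1 - ab.2) ^ i *
        ∏ t ∈ range m, ((2 + a + 2 * ab.1 + 3 * ab.2 : K) - t)) = 0 := by
    intro i m him hmd
    have h3 := fall_spanK S
      (fun ab => x ab.1 ab.2 * ∏ t ∈ range m, ((2 + a + 2 * ab.1 + 3 * ab.2 : K) - t))
      (fun ab => (d : K) - ab.1 - ab.2) 0 i i 0 (by omega) (by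
        intro w _ hw
        refine Eq.trans ?_ (h w m (by omega) (by omega))
        refine Finset.sum_congr rfl (fun o _ => by ring))
    refine Eq.trans ?_ h3
    refine Finset.sum_congr rfl (fun o _ => ?_)
    rw [Finset.range_zero, Finset.prod_empty]; ring
  refine dualU K (-(d : ℚ)) a d x (fun i n hi hn => ?_)
  have h3 := fall_spanK S
    (fun ab => x ab.1 ab.2 * ((d : K) - ab.1 - ab.2) ^ i)
    (fun ab => (2 + a + 2 * ab.1 + 3 * ab.2 : K)) (1 - a) (2 * d - 2 * i) n (2 * i) (by omega) (by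
      intro w hw hw'
      refine Eq.trans ?_ (h2 i w (by omega) (by omega))
      refine Finset.sum_congr rfl (fun o _ => by ring))
  have h4 : (-1 : K) ^ i * ∑ ab ∈ S, x ab.1 ab.2 * ((d : K) - ab.1 - ab.2) ^ i *
      ((∏ t ∈ range (2 * i), ((2 + a + 2 * ab.1 + 3 * ab.2 : K) - t)) *
        ((2 + a + 2 * ab.1 + 3 * ab.2 : K) + (1 - a)) ^ n) = 0 := by
    rw [h3, mul_zero]
  refine Eq.trans ?_ h4
  rw [Finset.mul_sum]
  refine Finset.sum_congr rfl (fun ab _ => ?_)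
  have e1 : (((-(d : ℚ) : ℚ) : K) + ab.1 + ab.2) ^ i
      = (-1 : K) ^ i * ((d : K) - ab.1 - ab.2) ^ i := by
    rw [← mul_pow]; push_cast; ring
  have e2 : ∏ l ∈ range (2 * i), ((3 + 2 * ab.1 + 3 * ab.2 : K) + a - 1 - l)
      = ∏ t ∈ range (2 * i), ((2 + a + 2 * ab.1 + 3 * ab.2 : K) - t) :=
    Finset.prod_congr rfl (fun l _ => by ring)
  rw [e1, e2]
  ring

end Pool.Agent.SplU
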