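import Mathlib

/-!
# A positivity lemma on the unit interval

`g y = 3 y^2 - 2 y^3` is an increasing bijection of `[0,1]`. If a polynomial `B` of degree at most
`n` satisfies `∫_0^1 y^(M+r) (1 - g y)^E B(g y) dy = 0` for `r = 0..n`, then `B = 0`.
-/

namespace Pool.Agent.SplU

open Polynomial Set

/-- the function `3 y^2 - 2 y^3` -/
def gg (y : ℝ) : ℝ := 3 * y ^ 2 - 2 * y ^ 3

lemma gg_cont : Continuous gg := by unfold gg; fun_prop

lemma gg_zero : gg 0 = 0 := by simp [gg]

lemma gg_one : gg 1 = 1 := by simp [gg]; norm_num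

lemma gg_lt {x y : ℝ} (hx : 0 ≤ x) (hxy : x < y) (hy : y ≤ 1) : gg x < gg y := by
  have h : gg y - gg x = (y - x) * (3 * (x + y) - 2 * (x ^ 2 + x * y + y ^ 2)) := by
    unfold gg; ring
  have h2 : 0 < 3 * (x + y) - 2 * (x ^ 2 + x * y + y ^ 2) := by
    nlinarith [mul_nonneg hx (sub_nonneg.2 hy), mul_nonneg hx (sub_nonneg.2 (hxy.le.trans hy)),
      mul_nonneg (hx.trans hxy.le) (sub_nonneg.2 hy), mul_pos (lt_of_le_of_lt hx hxy) (sub_pos.2 hxy)]
  have := mul_pos (sub_pos.2 hxy) h2
  linarith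

lemma gg_mem {y : ℝ} (hy : y ∈ Ioo (0 : ℝ) 1) : gg y ∈ Ioo (0 : ℝ) 1 := by
  constructor
  · have := gg_lt le_rfl hy.1 hy.2.le
    rwa [gg_zero] at this
  · have := gg_lt hy.1.le hy.2 le_rfl
    rwa [gg_one] at this

lemma gg_surj {x : ℝ} (hx : x ∈ Ioo (0 : ℝ) 1) : ∃ y ∈ Ioo (0 : ℝ) 1, gg y = x := by
  have h := intermediate_value_Ioo (zero_le_one' ℝ) gg_cont.continuousOn
  rw [gg_zero, gg_one] at h
  obtain ⟨y, hy, h⟩ := h hx
  exact ⟨y, hy, h⟩

/-- an inverse of `gg` on `(0,1)` -/
noncomputable def gi (x : ℝ) : ℝ := if h : x ∈ Ioo (0 : ℝ) 1 then (gg_surj h).choose else 0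

lemma gi_spec {x : ℝ} (hx : x ∈ Ioo (0 : ℝ) 1) : gi x ∈ Ioo (0 : ℝ) 1 ∧ gg (gi x) = x := by
  unfold gi
  rw [dif_pos hx]
  exact (gg_surj hx).choose_spec

lemma fac_nonneg {x y : ℝ} (hx : x ∈ Ioo (0 : ℝ) 1) (hy : y ∈ Ioo (0 : ℝ) 1) :
    0 ≤ (gg y - x) * (y - gi x) := by
  obtain ⟨h1, h2⟩ := gi_spec hx
  rcases lt_trichotomy y (gi x) with h | h | h
  · have := gg_lt hy.1.le h h1.2.le
    rw [h2] at this
    nlinarith
  · rw [h]; simp
  · have := gg_lt h1.1.le h hy.2.le
    rw [h2] at this
    nlinarith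

/-- a polynomial without zeros in `(0,1)` has constant sign there -/
lemma const_sign (R : ℝ[X]) (h : ∀ x ∈ Ioo (0 : ℝ) 1, R.eval x ≠ 0) :
    (∀ x ∈ Ioo (0 : ℝ) 1, 0 < R.eval x) ∨ (∀ x ∈ Ioo (0 : ℝ) 1, 0 < (-R).eval x) := by
  by_contra hcon
  push Not at hcon
  obtain ⟨⟨x, hx, hx'⟩, ⟨y, hy, hy'⟩⟩ := hcon
  rw [eval_neg] at hy'
  have hx2 : R.eval x < 0 := lt_of_le_of_ne hx' (h x hx)
  have hy2 : 0 < R.eval y := lt_of_le_of_ne (by linarith) (Ne.symm (h y hy))
  have hc : ContinuousOn (fun z => R.eval z) (Ioo (0 : ℝ) 1) := R.continuous.continuousOn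
  have := isPreconnected_Ioo.intermediate_value hx hy hc
  obtain ⟨z, hz, hz'⟩ := this (show (0 : ℝ) ∈ Icc (R.eval x) (R.eval y) from ⟨hx2.le, hy2.le⟩)
  exact h z hz hz'

theorem pos_lemma (B : ℝ[X]) (n E M : ℕ) (hB : B.natDegree ≤ n)
    (h : ∀ r ≤ n, ∫ y in (0 : ℝ)..1, y ^ (M + r) * ((1 - gg y) ^ E * B.eval (gg y)) = 0) :
    B = 0 := by
  classical
  by_contra hne
  set S : Multiset ℝ := B.roots.filter (fun x => x ∈ Ioo (0 : ℝ) 1) with hS
  have hSmem : ∀ x ∈ S, x ∈ Ioo (0 : ℝ) 1 := fun x hx => (Multiset.mem_filter.1 hx).2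
  obtain ⟨R, hR⟩ := (Multiset.prod_X_sub_C_dvd_iff_le_roots hne S).2 (Multiset.filter_le _ _)
  have hRne : R ≠ 0 := by rintro rfl; rw [mul_zero] at hR; exact hne hR
  have hRroot : ∀ x ∈ Ioo (0 : ℝ) 1, R.eval x ≠ 0 := by
    intro x hx h0
    have h1 : x ∈ R.roots := (mem_roots hRne).2 h0
    have h2 : B.roots = S + R.roots := by
      have hp : (S.map fun a => X - C a).prod ≠ 0 := by
        intro h0; rw [h0, zero_mul] at hR; exact hne hR
      conv_lhs => rw [hR]
      rw [roots_mul (mul_ne_zero hp hRne), roots_multiset_prod_X_sub_C]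
    have h3 : Multiset.count x B.roots = Multiset.count x S + Multiset.count x R.roots := by
      rw [h2, Multiset.count_add]
    have h4 : Multiset.count x S = Multiset.count x B.roots := by
      rw [hS, Multiset.count_filter_of_pos hx]
    have h5 := Multiset.count_pos.2 h1
    omega
  set T : ℝ[X] := (S.map fun a => X - C (gi a)).prod with hT
  have hTdeg : T.natDegree ≤ n := by
    have h1 : (S.map fun a => X - C (gi a)) = ((S.map gi).map fun a => X - C a) := by
      rw [Multiset.map_map]; rfl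
    rw [hT, h1, natDegree_multiset_prod_X_sub_C_eq_card, Multiset.card_map]
    calc S.card ≤ B.roots.card := Multiset.card_le_card (Multiset.filter_le _ _)
      _ ≤ B.natDegree := card_roots' B
      _ ≤ n := hB
  have hTne : T ≠ 0 := by
    rw [hT]
    apply Multiset.prod_ne_zero
    rw [Multiset.mem_map]
    rintro ⟨a, _, ha⟩
    exact X_sub_C_ne_zero _ ha
  -- the integral of the product vanishes
  have hint : ∫ y in (0 : ℝ)..1, y ^ M * ((1 - gg y) ^ E * (B.eval (gg y) * T.eval y)) = 0 := by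
    have e : (fun y : ℝ => y ^ M * ((1 - gg y) ^ E * (B.eval (gg y) * T.eval y)))
        = fun y => ∑ r ∈ Finset.range (n + 1),
          T.coeff r * (y ^ (M + r) * ((1 - gg y) ^ E * B.eval (gg y))) := by
      funext y
      rw [eval_eq_sum_range' (Nat.lt_succ_of_le hTdeg)]
      rw [Finset.mul_sum, Finset.mul_sum, Finset.mul_sum]
      refine Finset.sum_congr rfl (fun r _ => ?_)
      rw [pow_add]; ring
    rw [e, intervalIntegral.integral_finsetSum]
    · refine Finset.sum_eq_zero (fun r hr => ?_)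
      rw [intervalIntegral.integral_const_mul, h r (by rw [Finset.mem_range] at hr; omega),
        mul_zero]
    · intro r _
      apply Continuous.intervalIntegrable
      have := gg_cont
      have hB' : Continuous fun y => B.eval (gg y) := B.continuous.comp gg_cont
      fun_prop
  -- sign
  have key : ∀ s : ℝ, (∀ x ∈ Ioo (0 : ℝ) 1, 0 < s * R.eval x) → False := by
    intro s hs
    set F : ℝ → ℝ := fun y => s * (y ^ M * ((1 - gg y) ^ E * (B.eval (gg y) * T.eval y))) with hF
    have hFc : Continuous F := by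
      have h1 := gg_cont
      have hB' : Continuous fun y => B.eval (gg y) := B.continuous.comp gg_cont
      have hT' : Continuous fun y => T.eval y := T.continuous
      rw [hF]
      fun_prop
    have hprod : ∀ y ∈ Ioo (0 : ℝ) 1, 0 ≤ (S.map fun a => (gg y - a) * (y - gi a)).prod := by
      intro y hy
      apply Multiset.prod_nonneg
      intro z hz
      rw [Multiset.mem_map] at hz
      obtain ⟨a, ha, rfl⟩ := hz
      exact fac_nonneg (hSmem a ha) hy
    have hFe : ∀ y, F y = y ^ M * ((1 - gg y) ^ E *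
        ((S.map fun a => (gg y - a) * (y - gi a)).prod * (s * R.eval (gg y)))) := by
      intro y
      have h1 : B.eval (gg y) = (S.map fun a => (gg y - a)).prod * R.eval (gg y) := by
        conv_lhs => rw [hR]
        rw [eval_mul, eval_multiset_prod, Multiset.map_map]
        simp
      have h2 : T.eval y = (S.map fun a => (y - gi a)).prod := by
        rw [hT, eval_multiset_prod, Multiset.map_map]
        simp
      rw [hF]
      simp only
      rw [h1, h2, Multiset.prod_map_mul]
      ring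
    have hF0 : ∀ y ∈ Ioo (0 : ℝ) 1, 0 ≤ F y := by
      intro y hy
      rw [hFe y]
      have h1 := gg_mem hy
      have h2 := hs _ h1
      have h3 := hprod y hy
      have h4 : 0 ≤ y ^ M := pow_nonneg hy.1.le _
      have h5 : 0 ≤ (1 - gg y) ^ E := pow_nonneg (by linarith [h1.2]) _
      positivity
    have hF1 : ∀ y ∈ Icc (0 : ℝ) 1, 0 ≤ F y := by
      have hcl : IsClosed {y | 0 ≤ F y} := isClosed_le continuous_const hFc
      have := hcl.closure_subset_iff.2 (show Ioo (0 : ℝ) 1 ⊆ {y | 0 ≤ F y} from hF0)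
      rw [closure_Ioo zero_ne_one] at this
      exact this
    have hex : ∃ c ∈ Icc (0 : ℝ) 1, 0 < F c := by
      -- choose a point which is no root
      by_contra hcon
      push Not at hcon
      have hz : ∀ y ∈ Ioo (0 : ℝ) 1, F y = 0 := fun y hy =>
        le_antisymm (hcon y (Ioo_subset_Icc_self hy)) (hF0 y hy)
      -- then `B(g y) T(y)` vanishes on `(0,1)`
      have hsub : Ioo (0 : ℝ) 1 ⊆ {y | (B.comp (C 3 * X ^ 2 - C 2 * X ^ 3) * T).IsRoot y} := by
        intro y hy
        have h1 := hz y hy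
        have h2 := gg_mem hy
        have h3 := hs _ h2
        have hs0 : s ≠ 0 := by rintro rfl; simp at h3
        rw [hF] at h1
        simp only at h1
        have h4 : y ^ M ≠ 0 := pow_ne_zero _ hy.1.ne'
        have h5 : (1 - gg y) ^ E ≠ 0 := pow_ne_zero _ (by linarith [h2.2])
        have h6 : B.eval (gg y) * T.eval y = 0 := by
          rcases mul_eq_zero.1 h1 with h | h
          · exact absurd h hs0
          · rcases mul_eq_zero.1 h with h | h
            · exact absurd h h4
            · rcases mul_eq_zero.1 h with h | h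
              · exact absurd h h5
              · exact h
        simp only [mem_ofPred_eq, IsRoot.def, eval_mul, eval_comp, eval_sub, eval_C, eval_pow,
          eval_X]
        exact h6
      have hinf : (B.comp (C 3 * X ^ 2 - C 2 * X ^ 3) * T) = 0 :=
        eq_zero_of_infinite_isRoot _ ((Ioo_infinite (zero_lt_one' ℝ)).mono hsub)
      rcases mul_eq_zero.1 hinf with h0 | h0
      · -- `B ∘ g = 0` implies `B = 0`
        apply hne
        apply eq_zero_of_infinite_isRoot
        refine (Ioo_infinite (zero_lt_one' ℝ)).mono ?_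
        intro x hx
        obtain ⟨y, hy, rfl⟩ := gg_surj hx
        have : (B.comp (C 3 * X ^ 2 - C 2 * X ^ 3)).eval y = 0 := by rw [h0]; simp
        simpa [eval_comp, gg] using this
      · exact hTne h0
    have hpos := intervalIntegral.integral_pos (zero_lt_one' ℝ) hFc.continuousOn
      (fun x hx => hF1 x ⟨hx.1.le, hx.2⟩) hex
    rw [hF, intervalIntegral.integral_const_mul, hint, mul_zero] at hpos
    exact lt_irrefl _ hpos
  rcases const_sign R hRroot with h1 | h1
  · exact key 1 (by simpa using h1)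
  · exact key (-1) (by simpa using h1)

end Pool.Agent.SplU
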