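import Mathlib

/-!
# The operator `f ↦ f - x f(· + 1)` and its powers
-/

namespace Pool.Agent.SplU

open Polynomial Finset

/-- `T x f = f - x f(· + 1)` -/
def Tee (x : ℝ) (f : ℝ → ℝ) : ℝ → ℝ := fun s => f s - x * f (s + 1)

/-- shift as a linear map -/
def ShL : Module.End ℝ (ℝ → ℝ) where
  toFun f := fun s => f (s + 1)
  map_add' _ _ := rfl
  map_smul' _ _ := rfl

/-- forward difference as a linear map -/
def DiL : Module.End ℝ (ℝ → ℝ) := ShL - 1

lemma ShL_pow (n : ℕ) (f : ℝ → ℝ) (s : ℝ) : (ShL ^ n) f s = f (s + n) := by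
  induction n generalizing f s with
  | zero => simp
  | succ n ih =>
    rw [pow_succ, Module.End.mul_apply, ih]
    show f (s + n + 1) = _
    congr 1; push_cast; ring

lemma DiL_pow (n : ℕ) (f : ℝ → ℝ) : (DiL ^ n) f = (fwdDiff (1 : ℝ))^[n] f := by
  induction n generalizing f with
  | zero => simp
  | succ n ih =>
    rw [pow_succ, Module.End.mul_apply, ih, Function.iterate_succ_apply]
    congr 1

lemma Tee_eq1 (x : ℝ) (f : ℝ → ℝ) : Tee x f = (1 + (-x) • ShL) f := by
  funext s
  simp only [Tee, LinearMap.add_apply, LinearMap.smul_apply, Module.End.one_apply, Pi.add_apply,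
    Pi.smul_apply, smul_eq_mul]
  show _ = f s + -x * f (s + 1)
  ring

lemma Tee_eq2 (x : ℝ) (f : ℝ → ℝ) : Tee x f = ((1 - x) • (1 : Module.End ℝ (ℝ → ℝ)) + (-x) • DiL) f := by
  funext s
  simp only [Tee, LinearMap.add_apply, LinearMap.smul_apply, Module.End.one_apply, Pi.add_apply,
    Pi.smul_apply, smul_eq_mul]
  show _ = (1 - x) * f s + -x * (f (s + 1) - f s)
  ring

lemma Tee_iter1 (x : ℝ) (f : ℝ → ℝ) (D : ℕ) : (Tee x)^[D] f = ((1 + (-x) • ShL) ^ D) f := by
  induction D generalizing f with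
  | zero => simp
  | succ D ih => rw [Function.iterate_succ_apply, ih, pow_succ, Module.End.mul_apply, Tee_eq1]

lemma Tee_iter2 (x : ℝ) (f : ℝ → ℝ) (D : ℕ) :
    (Tee x)^[D] f = (((1 - x) • (1 : Module.End ℝ (ℝ → ℝ)) + (-x) • DiL) ^ D) f := by
  induction D generalizing f with
  | zero => simp
  | succ D ih => rw [Function.iterate_succ_apply, ih, pow_succ, Module.End.mul_apply, Tee_eq2]

lemma Tee_sum1 (x : ℝ) (f : ℝ → ℝ) (D : ℕ) (s : ℝ) :
    (Tee x)^[D] f s = ∑ m ∈ range (D + 1), (D.choose m : ℝ) * ((-x) ^ m * f (s + m)) := by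
  rw [Tee_iter1, add_comm, (Commute.one_right ((-x) • ShL)).add_pow, LinearMap.sum_apply,
    Finset.sum_apply]
  refine Finset.sum_congr rfl (fun m _ => ?_)
  rw [one_pow, mul_one, _root_.smul_pow]
  have : ((D.choose m : ℕ) : Module.End ℝ (ℝ → ℝ)) = (D.choose m : ℝ) • 1 := by
    ext g t; simp
  rw [this, mul_smul_comm, mul_one, LinearMap.smul_apply, LinearMap.smul_apply, Pi.smul_apply,
    Pi.smul_apply, ShL_pow, smul_eq_mul, smul_eq_mul]

lemma Tee_sum2 (x : ℝ) (f : ℝ → ℝ) (D : ℕ) (s : ℝ) :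
    (Tee x)^[D] f s = ∑ m ∈ range (D + 1),
      (D.choose m : ℝ) * ((-x) ^ m * ((1 - x) ^ (D - m) * (fwdDiff (1 : ℝ))^[m] f s)) := by
  rw [Tee_iter2, add_comm, ((Commute.one_right ((-x) • DiL)).smul_right (1 - x)).add_pow,
    LinearMap.sum_apply, Finset.sum_apply]
  refine Finset.sum_congr rfl (fun m _ => ?_)
  rw [_root_.smul_pow, _root_.smul_pow, one_pow]
  have : ((D.choose m : ℕ) : Module.End ℝ (ℝ → ℝ)) = (D.choose m : ℝ) • 1 := by
    ext g t; simp
  rw [this, mul_smul_comm, mul_one, mul_smul_comm, mul_one, LinearMap.smul_apply,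
    LinearMap.smul_apply, LinearMap.smul_apply, DiL_pow, Pi.smul_apply, Pi.smul_apply,
    Pi.smul_apply, smul_eq_mul, smul_eq_mul, smul_eq_mul]
  ring

/-- structure of `x ↦ (T x)^D c (s)` for a polynomial `c` of degree `< i` -/
theorem Tee_poly (c : ℝ[X]) (i D : ℕ) (hi : 1 ≤ i) (hD : i ≤ D + 1) (hc : c.natDegree < i)
    (s : ℝ) : ∃ B : ℝ[X], B.natDegree ≤ i - 1 ∧
      (∀ x, (Tee x)^[D] c.eval s = (1 - x) ^ (D + 1 - i) * B.eval x) ∧
      (B = 0 → ∀ m ≤ D, c.eval (s + m) = 0) := by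
  set B : ℝ[X] := ∑ m ∈ range i, C ((D.choose m : ℝ) * (fwdDiff (1 : ℝ))^[m] c.eval s) *
    ((-X) ^ m * (1 - X) ^ (i - 1 - m)) with hB
  have hval : ∀ x, (Tee x)^[D] c.eval s = (1 - x) ^ (D + 1 - i) * B.eval x := by
    intro x
    rw [Tee_sum2]
    have hsub : range i ⊆ range (D + 1) := by
      intro m hm; rw [Finset.mem_range] at *; omega
    rw [← Finset.sum_subset hsub]
    · rw [hB, eval_finsetSum, Finset.mul_sum]
      refine Finset.sum_congr rfl (fun m hm => ?_)
      rw [Finset.mem_range] at hm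
      simp only [eval_mul, eval_C, eval_pow, eval_neg, eval_X, eval_sub, eval_one]
      rw [show D - m = (D + 1 - i) + (i - 1 - m) by omega, pow_add]
      ring
    · intro m _ hm
      rw [Finset.mem_range, not_lt] at hm
      rw [Polynomial.fwdDiff_iter_eq_zero_of_degree_lt (lt_of_lt_of_le hc hm)]
      simp
  refine ⟨B, ?_, hval, ?_⟩
  · rw [hB]
    apply natDegree_sum_le_of_forall_le
    intro m hm
    rw [Finset.mem_range] at hm
    refine (natDegree_C_mul_le _ _).trans ?_
    refine natDegree_mul_le.trans ?_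
    have h1 : ((-X : ℝ[X]) ^ m).natDegree ≤ m := by
      refine natDegree_pow_le.trans ?_
      simp
    have h2 : ((1 - X : ℝ[X]) ^ (i - 1 - m)).natDegree ≤ i - 1 - m := by
      refine natDegree_pow_le.trans ?_
      have : (1 - X : ℝ[X]).natDegree ≤ 1 := by
        refine (natDegree_sub_le _ _).trans ?_
        simp
      calc (i - 1 - m) * (1 - X : ℝ[X]).natDegree ≤ (i - 1 - m) * 1 := Nat.mul_le_mul_left _ this
        _ = _ := mul_one _
    omega
  · intro h0 m hm
    set Q : ℝ[X] := ∑ m ∈ range (D + 1), C ((D.choose m : ℝ) * c.eval (s + m)) * (-X) ^ m with hQ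
    have hQ0 : Q = 0 := by
      apply Polynomial.funext
      intro x
      have h1 := hval x
      rw [h0, eval_zero, mul_zero, Tee_sum1] at h1
      rw [hQ, eval_finsetSum, eval_zero, ← h1]
      refine Finset.sum_congr rfl (fun m _ => ?_)
      simp only [eval_mul, eval_C, eval_pow, eval_neg, eval_X]
      ring
    have h2 : Q.coeff m = (D.choose m : ℝ) * c.eval (s + m) * (-1) ^ m := by
      rw [hQ, finsetSum_coeff, Finset.sum_eq_single m]
      · rw [neg_pow, coeff_C_mul]
        have : ((-1 : ℝ[X]) ^ m * X ^ m).coeff m = (-1) ^ m := by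
          have e : (-1 : ℝ[X]) ^ m = C ((-1 : ℝ) ^ m) := by simp
          rw [e, coeff_C_mul, coeff_X_pow_self, mul_one]
        rw [this]
      · intro b _ hb
        rw [neg_pow, coeff_C_mul]
        have : ((-1 : ℝ[X]) ^ b * X ^ b).coeff m = 0 := by
          have e : (-1 : ℝ[X]) ^ b = C ((-1 : ℝ) ^ b) := by simp
          rw [e, coeff_C_mul, coeff_X_pow, if_neg (by omega), mul_zero]
        rw [this, mul_zero]
      · intro h; exact absurd (Finset.mem_range.2 (by omega)) h
    rw [hQ0, coeff_zero] at h2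
    have h3 : (D.choose m : ℝ) ≠ 0 := by
      have := Nat.choose_pos hm
      positivity
    have h4 : ((-1 : ℝ)) ^ m ≠ 0 := pow_ne_zero _ (by norm_num)
    rcases mul_eq_zero.1 h2.symm with h | h
    · rcases mul_eq_zero.1 h with h | h
      · exact absurd h h3
      · exact h
    · exact absurd h h4

end Pool.Agent.SplU
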