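import Pool.Agent.SplU.Ops
import Pool.Agent.SplU.Pos
import Pool.Agent.SplU.Tee

/-!
# The key lemma
-/

namespace Pool.Agent.SplU

open Polynomial Finset

lemma Tee_cont (f : ℝ → ℝ) (D : ℕ) : ∀ s : ℝ, Continuous (fun y : ℝ => (Tee (gg y))^[D] f s) := by
  induction D with
  | zero => intro s; exact continuous_const
  | succ D ih =>
    intro s
    have e : (fun y : ℝ => (Tee (gg y))^[D + 1] f s)
        = fun y => (Tee (gg y))^[D] f s - gg y * (Tee (gg y))^[D] f (s + 1) := by
      funext y
      rw [Function.iterate_succ_apply']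
      rfl
    rw [e]
    have h1 := ih s
    have h2 := ih (s + 1)
    have h3 := gg_cont
    fun_prop

/-- `Lam^D` of a function given by an integral -/
lemma Lam_int (f : ℝ → ℝ) (m : ℕ) (s : ℝ) (V : Fn)
    (hV : ∀ a b, V a b = ∫ y in (0 : ℝ)..1, y ^ (m + 2 * a + 3 * b) * f (s + a + b)) (D : ℕ) :
    ∀ a b, (Lam^[D] V) a b
      = ∫ y in (0 : ℝ)..1, y ^ (m + 2 * a + 3 * b) * (Tee (gg y))^[D] f (s + a + b) := by
  induction D with
  | zero => intro a b; simpa using hV a b
  | succ D ih =>
    intro a b
    rw [Function.iterate_succ_apply']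
    simp only [Lam]
    rw [ih a b, ih (a + 1) b, ih a (b + 1)]
    have c1 := Tee_cont f D
    rw [← intervalIntegral.integral_const_mul, ← intervalIntegral.integral_const_mul,
      ← intervalIntegral.integral_sub, ← intervalIntegral.integral_add]
    · congr 1
      funext y
      rw [Function.iterate_succ_apply']
      simp only [Tee]
      have e1 : s + ((a + 1 : ℕ) : ℝ) + (b : ℝ) = s + a + b + 1 := by push_cast; ring
      have e2 : s + (a : ℝ) + ((b + 1 : ℕ) : ℝ) = s + a + b + 1 := by push_cast; ring
      rw [e1, e2, show m + 2 * (a + 1) + 3 * b = (m + 2 * a + 3 * b) + 2 by ring,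
        show m + 2 * a + 3 * (b + 1) = (m + 2 * a + 3 * b) + 3 by ring, pow_add, pow_add _ _ 3]
      unfold gg
      ring
    all_goals
      apply Continuous.intervalIntegrable
      have c2 := c1 (s + a + b)
      have c3 := c1 (s + ((a + 1 : ℕ) : ℝ) + b)
      have c4 := c1 (s + a + ((b + 1 : ℕ) : ℝ))
      fun_prop

variable {κ : ℝ}

lemma poly_mem' {w : ℤ} (j : ℕ) (q : ℝ[X]) (h : q = 0 ∨ (q.natDegree + 2 * j : ℤ) ≤ w) :
    (fun a b => kap κ a b ^ j * q.eval (nu a b)) ∈ P κ w := by
  rcases h with h | h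
  · have : (fun a b => kap κ a b ^ j * q.eval (nu a b)) = (0 : Fn) := by
      funext a b; simp [h]
    rw [this]; exact Submodule.zero_mem _
  · exact poly_mem j q h

/-- the quotient of `q` by `X - C e` -/
noncomputable def quo (e : ℝ) (q : ℝ[X]) : ℝ[X] := q /ₘ (X - C e)

lemma quo_spec (e : ℝ) (q : ℝ[X]) : q = C (q.eval e) + (X - C e) * quo e q := by
  have := modByMonic_add_div q (X - C e)
  rw [modByMonic_X_sub_C_eq_C_eval] at this
  exact this.symm

lemma quo_deg (e : ℝ) (q : ℝ[X]) : quo e q = 0 ∨ (quo e q).natDegree + 1 ≤ q.natDegree := by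
  unfold quo
  rcases Nat.eq_zero_or_pos q.natDegree with h | h
  · left
    rw [divByMonic_eq_zero_iff (monic_X_sub_C e), degree_X_sub_C]
    rcases eq_or_ne q 0 with h0 | h0
    · rw [h0, degree_zero]; exact WithBot.bot_lt_coe _
    · rw [degree_eq_natDegree h0, h]; norm_num
  · right
    rw [natDegree_divByMonic _ (monic_X_sub_C e), natDegree_X_sub_C]
    omega

/-- the lattice condition, level lemma part 1 -/
theorem level_eval (i D M : ℕ) (hi : 1 ≤ i) (hD : i ≤ D + 1) (u : Fn)
    (hu : u ∈ P κ (2 * D - 1)) (q : ℕ → ℝ[X])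
    (hq : ∀ j < i, (q j).natDegree + 2 * j ≤ 2 * D)
    (h : ∀ a b, a + b + 1 ≤ D + i → (nu a b - (2 * i - M)) * u a b
      = ∑ j ∈ range i, kap κ a b ^ j * (q j).eval (nu a b)) :
    ∀ j < i, (q j).eval (2 * (i : ℝ) - M) = 0 := by
  set e : ℝ := 2 * (i : ℝ) - M with he
  set U : Fn := fun a b => u a b - ∑ j ∈ range i, kap κ a b ^ j * (quo e (q j)).eval (nu a b) with hU
  have hUm : U ∈ P κ (2 * D - 1) := by
    have e1 : U = u - ∑ j ∈ range i, (fun a b => kap κ a b ^ j * (quo e (q j)).eval (nu a b)) := by
      funext a b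
      simp only [hU, Pi.sub_apply, Finset.sum_apply]
    rw [e1]
    refine Submodule.sub_mem _ hu (Submodule.sum_mem _ (fun j hj => poly_mem' _ _ ?_))
    rw [Finset.mem_range] at hj
    have h1 := hq j hj
    rcases quo_deg e (q j) with h2 | h2
    · exact Or.inl h2
    · right; omega
  have hU0 : Lam^[D] U = 0 := Lam_iter_zero hUm D (by omega)
  -- the polynomial `c`
  set c : ℝ[X] := ∑ j ∈ range i, C ((q j).eval e) * X ^ j with hc
  have hcd : c.natDegree < i := by
    have : c.natDegree ≤ i - 1 := by
      rw [hc]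
      apply natDegree_sum_le_of_forall_le
      intro j hj
      rw [Finset.mem_range] at hj
      refine (natDegree_C_mul_X_pow_le _ _).trans ?_
      omega
    omega
  set s0 : ℝ := κ - 1 + i with hs0
  obtain ⟨B, hB1, hB2, hB3⟩ := Tee_poly c i D hi hD hcd s0
  have hint : ∀ r ≤ i - 1, ∫ y in (0 : ℝ)..1,
      y ^ (M + r) * ((1 - gg y) ^ (D + 1 - i) * B.eval (gg y)) = 0 := by
    intro r hr
    set V : Fn := fun a b => c.eval (s0 + a + b) / (M + r + 2 * a + 3 * b + 1) with hV
    have hVint : ∀ a b, V a b = ∫ y in (0 : ℝ)..1, y ^ ((M + r) + 2 * a + 3 * b)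
        * c.eval (s0 + a + b) := by
      intro a b
      rw [intervalIntegral.integral_mul_const, integral_pow]
      simp only [hV]
      rw [one_pow, zero_pow (by omega)]
      push_cast
      ring
    have h1 := Lam_int c.eval (M + r) s0 V hVint D 0 0
    have h2 : (Lam^[D] V) 0 0 = 0 := by
      have h3 : (Lam^[D] V) 0 0 = (Lam^[D] (fun p t => U ((i - 1 - r) + p) (r + t))) 0 0 := by
        apply Lam_iter_congr
        intro x y hxy
        simp only [zero_add]
        simp only [hV, hU]
        have hpt := h ((i - 1 - r) + x) (r + y) (by omega)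
        have hk : kap κ ((i - 1 - r) + x) (r + y) = s0 + x + y := by
          unfold kap
          have : (((i - 1 - r : ℕ) + x : ℕ) : ℝ) = (i : ℝ) - 1 - r + x := by
            push_cast [Nat.cast_sub (show r ≤ i - 1 from hr), Nat.cast_sub hi]
            ring
          rw [this, hs0]; push_cast; ring
        have hn : nu ((i - 1 - r) + x) (r + y) = e + (M + r + 2 * x + 3 * y + 1) := by
          unfold nu
          have : (((i - 1 - r : ℕ) + x : ℕ) : ℝ) = (i : ℝ) - 1 - r + x := by
            push_cast [Nat.cast_sub (show r ≤ i - 1 from hr), Nat.cast_sub hi]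
            ring
          rw [this, he]; push_cast; ring
        rw [hk, hn] at hpt
        rw [hk, hn]
        set L : ℝ := (M : ℝ) + r + 2 * x + 3 * y + 1 with hL
        have hLpos : 0 < L := by positivity
        have e2 : e + L - e = L := by ring
        rw [e2] at hpt
        have e3 : ∑ j ∈ range i, (s0 + x + y) ^ j * (q j).eval (e + L)
            = c.eval (s0 + x + y)
              + L * ∑ j ∈ range i, (s0 + x + y) ^ j * (quo e (q j)).eval (e + L) := by
          rw [hc, eval_finsetSum, Finset.mul_sum, ← Finset.sum_add_distrib]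
          refine Finset.sum_congr rfl (fun j _ => ?_)
          conv_lhs => rw [quo_spec e (q j)]
          simp only [eval_add, eval_mul, eval_C, eval_sub, eval_X, eval_pow]
          ring
        rw [e3] at hpt
        field_simp
        linarith
      rw [h3, Lam_iter_shift D U, hU0]
      rfl
    rw [h2] at h1
    rw [show (∫ y in (0 : ℝ)..1, y ^ (M + r) * ((1 - gg y) ^ (D + 1 - i) * B.eval (gg y)))
      = ∫ y in (0 : ℝ)..1, y ^ (M + r + 2 * 0 + 3 * 0) *
        (Tee (gg y))^[D] c.eval (s0 + ((0 : ℕ) : ℝ) + ((0 : ℕ) : ℝ)) from ?_]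
    · exact h1.symm
    · congr 1
      funext y
      rw [← hB2]
      simp
  have hB0 : B = 0 := pos_lemma B (i - 1) (D + 1 - i) M hB1 hint
  have hroots := hB3 hB0
  have hc0 : c = 0 := by
    by_contra hne
    have h1 : (Finset.range (D + 1)).image (fun m : ℕ => s0 + m) ⊆ c.roots.toFinset := by
      intro x hx
      rw [Finset.mem_image] at hx
      obtain ⟨m, hm, rfl⟩ := hx
      rw [Finset.mem_range] at hm
      rw [Multiset.mem_toFinset, mem_roots hne]
      exact hroots m (by omega)
    have h2 := Finset.card_le_card h1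
    rw [Finset.card_image_of_injective _ (fun x y hxy => by
      have : (x : ℝ) = y := by simpa using hxy
      exact_mod_cast this), Finset.card_range] at h2
    have h3 := (Multiset.toFinset_card_le c.roots).trans (card_roots' c)
    omega
  intro j hj
  have h1 : c.coeff j = (q j).eval e := by
    rw [hc, finsetSum_coeff, Finset.sum_eq_single j]
    · rw [coeff_C_mul, coeff_X_pow_self, mul_one]
    · intro b _ hb
      rw [coeff_C_mul, coeff_X_pow, if_neg (by omega), mul_zero]
    · intro h; exact absurd (Finset.mem_range.2 hj) h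
  rw [← h1, hc0, coeff_zero]

/-- uniqueness: a function of `k`-degree `< i` and small weight which vanishes on the triangle
is zero -/
theorem level_unique (i D : ℕ) (hi : 1 ≤ i) (hD : i ≤ D + 1) (q : ℕ → ℝ[X])
    (hq : ∀ j < i, (q j).natDegree + 2 * j ≤ 2 * D)
    (h : ∀ a b, a + b + 1 ≤ D + i → ∑ j ∈ range i, kap κ a b ^ j * (q j).eval (nu a b) = 0) :
    ∀ j < i, q j = 0 := by
  intro j hj
  have key : ∀ M : ℕ, (q j).eval (2 * (i : ℝ) - M) = 0 := by
    intro M
    refine level_eval (κ := κ) i D M hi hD 0 (Submodule.zero_mem _) q hq ?_ j hj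
    intro a b hab
    rw [h a b hab]
    simp
  by_contra hne
  have h1 : ∀ n : ℕ, n ≤ (q j).natDegree := by
    intro n
    have h1 : (Finset.range n).image (fun m : ℕ => 2 * (i : ℝ) - m) ⊆ (q j).roots.toFinset := by
      intro x hx
      rw [Finset.mem_image] at hx
      obtain ⟨m, hm, rfl⟩ := hx
      rw [Multiset.mem_toFinset, mem_roots hne]
      exact key m
    have h2 := Finset.card_le_card h1
    rw [Finset.card_image_of_injective _ (fun x y hxy => by
      have : (x : ℝ) = y := by simpa using hxy
      exact_mod_cast this), Finset.card_range] at h2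
    exact h2.trans ((Multiset.toFinset_card_le _).trans (card_roots' _))
  have := h1 ((q j).natDegree + 1)
  omega

/-- the level lemma: divide by `nu - e`, `e = 2 i - M < 2 i + 1` -/
theorem level_div (i D M w : ℕ) (hi : 1 ≤ i) (hD : i ≤ D + 1) (hw : w + 1 ≤ 2 * D) (u : Fn)
    (hu : u ∈ P κ w) (q : ℕ → ℝ[X])
    (hq : ∀ j < i, (q j).natDegree + 2 * j ≤ w + 1)
    (h : ∀ a b, a + b + 1 ≤ D + i → (nu a b - (2 * i - M)) * u a b
      = ∑ j ∈ range i, kap κ a b ^ j * (q j).eval (nu a b)) :
    ∃ p : ℕ → ℝ[X], (∀ j < i, p j = 0 ∨ (p j).natDegree + 2 * j ≤ w) ∧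
      ∀ a b, a + b + 1 ≤ D + i → u a b = ∑ j ∈ range i, kap κ a b ^ j * (p j).eval (nu a b) := by
  have hev := level_eval i D M hi hD u (P_mono (by omega) hu) q
    (fun j hj => (hq j hj).trans hw) h
  set e : ℝ := 2 * (i : ℝ) - M with he
  have hqe : ∀ j < i, q j = (X - C e) * quo e (q j) := by
    intro j hj
    conv_lhs => rw [quo_spec e (q j)]
    rw [hev j hj]; simp
  have hdeg : ∀ j < i, quo e (q j) = 0 ∨ (quo e (q j)).natDegree + 2 * j ≤ w := by
    intro j hj
    rcases quo_deg e (q j) with h1 | h1
    · exact Or.inl h1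
    · right
      have := hq j hj
      omega
  refine ⟨fun j => quo e (q j), hdeg, ?_⟩
  set U : Fn := fun a b => u a b - ∑ j ∈ range i, kap κ a b ^ j * (quo e (q j)).eval (nu a b) with hU
  have hUm : U ∈ P κ w := by
    have e1 : U = u - ∑ j ∈ range i, (fun a b => kap κ a b ^ j * (quo e (q j)).eval (nu a b)) := by
      funext a b
      simp only [hU, Pi.sub_apply, Finset.sum_apply]
    rw [e1]
    refine Submodule.sub_mem _ hu (Submodule.sum_mem _ (fun j hj => poly_mem' _ _ ?_))
    rw [Finset.mem_range] at hj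
    rcases hdeg j hj with h1 | h1
    · exact Or.inl h1
    · right; exact_mod_cast h1
  have hU0 : Lam^[D] U = 0 := Lam_iter_zero hUm D (by omega)
  have hoff : ∀ a b, a + b + 1 ≤ D + i → nu a b ≠ e → U a b = 0 := by
    intro a b hab hne
    have h1 := h a b hab
    have h2 : ∑ j ∈ range i, kap κ a b ^ j * (q j).eval (nu a b)
        = (nu a b - e) * ∑ j ∈ range i, kap κ a b ^ j * (quo e (q j)).eval (nu a b) := by
      rw [Finset.mul_sum]
      refine Finset.sum_congr rfl (fun j hj => ?_)
      rw [Finset.mem_range] at hj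
      conv_lhs => rw [hqe j hj]
      simp only [eval_mul, eval_sub, eval_X, eval_C]
      ring
    rw [h2] at h1
    have h3 : nu a b - e ≠ 0 := sub_ne_zero.2 hne
    have h4 := mul_left_cancel₀ h3 h1
    simp only [hU]
    linarith
  intro a b hab
  have : U a b = 0 := by
    by_cases hne : nu a b = e
    · -- on the line `nu = e`
      have h1 : (3 : ℝ) + 2 * a + 3 * b = 2 * i - M := by
        rw [← he, ← hne]; rfl
      have h2 : (3 : ℝ) + 2 * a + 3 * b + M = 2 * i := by linarith
      have h3 : 3 + 2 * a + 3 * b + M = 2 * i := by exact_mod_cast h2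
      have h4 := Lam_iter_corner D U a b (fun x y hxy hne' => by
        apply hoff _ _ (by omega)
        rw [← hne]
        unfold nu
        have : 0 < x ∨ 0 < y := by
          by_contra hcon
          push Not at hcon
          exact hne' (by rw [Nat.le_zero.1 hcon.1, Nat.le_zero.1 hcon.2])
        have h5 : 0 < 2 * x + 3 * y := by omega
        have h6 : (0 : ℝ) < 2 * x + 3 * y := by exact_mod_cast h5
        push_cast
        intro h7
        linarith)
      rw [hU0] at h4
      exact h4.symm
    · exact hoff a b hab hne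
  simp only [hU] at this
  linarith

end Pool.Agent.SplU
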