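import Pool.Agent.SplU.Key

/-!
# Unisolvence theorem `U`

`kap = κ + a + b` (`κ` real), `nu = 3 + 2 a + 3 b`. If
`∑_{j ≤ d/2} kap^j * prod_{l < 2j} (nu + s - 1 - l) * p_j(nu)` with `deg p_j ≤ 2 d - 4 j` vanishes
at all lattice points `a + b ≤ d`, then all `p_j` are zero (`s` any natural number).
-/

namespace Pool.Agent.SplU

open Polynomial Finset

/-- the part of level `I` -/
noncomputable def FI (κ : ℝ) (σ : ℕ) (m : ℕ) (p : ℕ → ℝ[X]) (I : ℕ) : Fn := fun a b =>
  ∑ j ∈ Ico I (m + 1), kap κ a b ^ j * (∏ l ∈ Ico (2 * I) (2 * j), (nu a b + σ - 1 - l)) *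
    (p j).eval (nu a b)

variable {κ : ℝ} {σ : ℕ}

lemma FI_step (m : ℕ) (p : ℕ → ℝ[X]) (I : ℕ) (hI : I ≤ m) (a b : ℕ) :
    FI κ σ m p I a b = kap κ a b ^ I * (p I).eval (nu a b)
      + (nu a b + σ - 1 - (2 * I : ℕ)) *
        ((nu a b + σ - 1 - (2 * I + 1 : ℕ)) * FI κ σ m p (I + 1) a b) := by
  unfold FI
  rw [← Finset.add_sum_Ioo_eq_sum_Ico (by omega : I < m + 1)]
  have e1 : Ioo I (m + 1) = Ico (I + 1) (m + 1) := by
    ext x; simp only [mem_Ioo, mem_Ico]; omega
  rw [e1, Finset.mul_sum, Finset.mul_sum]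
  congr 1
  · simp
  · refine Finset.sum_congr rfl (fun j hj => ?_)
    rw [mem_Ico] at hj
    rw [Finset.prod_eq_prod_Ico_succ_bot (by omega : 2 * I < 2 * j),
      Finset.prod_eq_prod_Ico_succ_bot (by omega : 2 * I + 1 < 2 * j)]
    rw [show 2 * I + 1 + 1 = 2 * (I + 1) by ring]
    ring

lemma prod_mem {w : ℤ} {f : Fn} (s : Finset ℕ) (hf : f ∈ P κ w) :
    (fun a b => (∏ l ∈ s, (nu a b + σ - 1 - l)) * f a b) ∈ P κ (w + s.card) := by
  classical
  induction s using Finset.induction_on with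
  | empty => simpa using hf
  | insert x s hx ih =>
    have h1 := nu_sub_mul ((x : ℝ) + 1 - σ) ih
    have e : (fun a b => (∏ l ∈ insert x s, (nu a b + σ - 1 - (l : ℝ))) * f a b)
        = fun a b => (nu a b - ((x : ℝ) + 1 - σ)) *
          ((∏ l ∈ s, (nu a b + σ - 1 - l)) * f a b) := by
      funext a b; rw [Finset.prod_insert hx]; ring
    rw [e, Finset.card_insert_of_notMem hx]
    refine P_mono ?_ h1
    push_cast; omega

lemma FI_mem (d m : ℕ) (p : ℕ → ℝ[X]) (hp : ∀ j ≤ m, (p j).natDegree + 4 * j ≤ 2 * d) (I : ℕ) :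
    FI κ σ m p I ∈ P κ (2 * d - 2 * I) := by
  have e : FI κ σ m p I = ∑ j ∈ Ico I (m + 1), (fun a b =>
      (∏ l ∈ Ico (2 * I) (2 * j), (nu a b + σ - 1 - l)) *
        (kap κ a b ^ j * (p j).eval (nu a b))) := by
    funext a b
    rw [Finset.sum_apply, Finset.sum_apply]
    unfold FI
    refine Finset.sum_congr rfl (fun j _ => by ring)
  rw [e]
  refine Submodule.sum_mem _ (fun j hj => ?_)
  rw [mem_Ico] at hj
  have h1 := hp j (by omega)
  have h2 := prod_mem (σ := σ) (Ico (2 * I) (2 * j)) (poly_mem (κ := κ) (w := 2 * d - 2 * j) j (p j) (by omega))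
  refine P_mono ?_ h2
  rw [Nat.card_Ico]
  omega

/-- levels -/
lemma levels (d m : ℕ) (hm : 2 * m ≤ d) (p : ℕ → ℝ[X])
    (hp : ∀ j ≤ m, (p j).natDegree + 4 * j ≤ 2 * d)
    (h : ∀ a b, a + b ≤ d → FI κ σ m p 0 a b = 0) (I : ℕ) (hI : I ≤ m) :
    ∃ q : ℕ → ℝ[X], (∀ j < I, (q j).natDegree + 2 * j + 2 * I ≤ 2 * d) ∧
      ∀ a b, a + b ≤ d → FI κ σ m p I a b = ∑ j ∈ range I, kap κ a b ^ j * (q j).eval (nu a b) := by
  induction I with
  | zero => exact ⟨fun _ => 0, by simp, fun a b hab => by simpa using h a b hab⟩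
  | succ I ih =>
    obtain ⟨q, hq, hqe⟩ := ih (by omega)
    set q' : ℕ → ℝ[X] := fun j => if j < I then q j else - p I with hq'
    have hsum : ∀ a b, a + b ≤ d →
        (nu a b + σ - 1 - (2 * I : ℕ)) *
          ((nu a b + σ - 1 - (2 * I + 1 : ℕ)) * FI κ σ m p (I + 1) a b)
          = ∑ j ∈ range (I + 1), kap κ a b ^ j * (q' j).eval (nu a b) := by
      intro a b hab
      have h1 := hqe a b hab
      rw [FI_step m p I (by omega)] at h1
      rw [Finset.sum_range_succ]
      have h2 : ∑ j ∈ range I, kap κ a b ^ j * (q' j).eval (nu a b)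
          = ∑ j ∈ range I, kap κ a b ^ j * (q j).eval (nu a b) := by
        refine Finset.sum_congr rfl (fun j hj => ?_)
        rw [Finset.mem_range] at hj
        simp only [hq', if_pos hj]
      rw [h2, ← h1]
      simp only [hq', lt_irrefl, if_false, eval_neg]
      ring
    have hdeg : ∀ j < I + 1, (q' j).natDegree + 2 * j ≤ (2 * (d - I) - 1) + 1 := by
      intro j hj
      simp only [hq']
      split_ifs with hlt
      · have := hq j hlt; omega
      · have hjI : j = I := by omega
        subst hjI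
        rw [natDegree_neg]
        have := hp j (by omega)
        omega
    have hF := FI_mem (κ := κ) (σ := σ) d m p hp (I + 1)
    have hF1 : (fun a b => (nu a b + σ - 1 - (2 * I + 1 : ℕ)) * FI κ σ m p (I + 1) a b)
        ∈ P κ ((2 * (d - I) - 1 : ℕ) : ℤ) := by
      have e1 : (fun a b => (nu a b + σ - 1 - (2 * I + 1 : ℕ)) * FI κ σ m p (I + 1) a b)
          = fun a b => (nu a b - (((2 * I + 1 : ℕ) : ℝ) + 1 - σ)) * FI κ σ m p (I + 1) a b := by
        funext a b; ring
      rw [e1]
      exact P_mono (by push_cast; omega) (nu_sub_mul _ hF)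
    obtain ⟨q1, hq1, hq1e⟩ := level_div (I + 1) (d - I) (σ + 1) (2 * (d - I) - 1) (by omega)
      (by omega) (by omega) (fun a b => (nu a b + σ - 1 - (2 * I + 1 : ℕ)) * FI κ σ m p (I + 1) a b)
      hF1 q' hdeg (fun a b hab => by
        have := hsum a b (by omega)
        rw [← this]
        congr 1
        push_cast; ring)
    have hdeg1 : ∀ j < I + 1, (q1 j).natDegree + 2 * j ≤ (2 * (d - I) - 2) + 1 := by
      intro j hj
      rcases hq1 j hj with h0 | h0
      · rw [h0, natDegree_zero]; omega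
      · omega
    obtain ⟨q2, hq2, hq2e⟩ := level_div (I + 1) (d - I) σ (2 * (d - I) - 2) (by omega) (by omega)
      (by omega) (FI κ σ m p (I + 1)) (P_mono (by omega) hF) q1 hdeg1 (fun a b hab => by
        have := hq1e a b hab
        rw [← this]
        congr 1
        push_cast; ring)
    refine ⟨q2, ?_, fun a b hab => hq2e a b (by omega)⟩
    intro j hj
    rcases hq2 j hj with h0 | h0
    · rw [h0, natDegree_zero]; omega
    · omega

/-- unisolvence, general form with `m ≤ d / 2` -/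
theorem unisolv (d m : ℕ) (hm : 2 * m ≤ d) (p : ℕ → ℝ[X])
    (hp : ∀ j ≤ m, (p j).natDegree + 4 * j ≤ 2 * d)
    (h : ∀ a b, a + b ≤ d → FI κ σ m p 0 a b = 0) : ∀ j ≤ m, p j = 0 := by
  have key : ∀ t ≤ m + 1, ∀ j ≤ m, m + 1 ≤ j + t → p j = 0 := by
    intro t
    induction t with
    | zero => intro _ j hj hjt; omega
    | succ t ih =>
      intro ht j hj hjt
      rcases Nat.lt_or_ge (m + 1) (j + (t + 1)) with hlt | hge
      · exact ih (by omega) j hj (by omega)
      · have hjt' : j + t = m := by omega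
        obtain ⟨q, hq, hqe⟩ := levels d m hm p hp h j hj
        set q' : ℕ → ℝ[X] := fun l => if l < j then q l else - p j with hq'
        have hzero : ∀ a b, FI κ σ m p (j + 1) a b = 0 := by
          intro a b
          unfold FI
          refine Finset.sum_eq_zero (fun l hl => ?_)
          rw [mem_Ico] at hl
          rw [ih (by omega) l (by omega) (by omega)]
          simp
        have h1 := level_unique (κ := κ) (j + 1) (d - j) (by omega) (by omega) q' (by
          intro l hl
          simp only [hq']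
          split_ifs with hlt
          · have := hq l hlt; omega
          · have hlj : l = j := by omega
            subst hlj
            rw [natDegree_neg]
            have := hp l (by omega)
            omega) (by
          intro a b hab
          have h2 := hqe a b (by omega)
          rw [FI_step m p j hj, hzero, mul_zero, mul_zero, add_zero] at h2
          rw [Finset.sum_range_succ]
          have h3 : ∑ l ∈ range j, kap κ a b ^ l * (q' l).eval (nu a b)
              = ∑ l ∈ range j, kap κ a b ^ l * (q l).eval (nu a b) := by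
            refine Finset.sum_congr rfl (fun l hl => ?_)
            rw [Finset.mem_range] at hl
            simp only [hq', if_pos hl]
          rw [h3, ← h2]
          simp only [hq', lt_irrefl, if_false, eval_neg]
          ring) j (by omega)
        simp only [hq', lt_irrefl, if_false, neg_eq_zero] at h1
        exact h1
  intro j hj
  exact key (m + 1) le_rfl j hj (by omega)

/-- **Theorem U**, with the nodes `l + 1 - σ`. -/
theorem thmUs (κ : ℝ) (σ : ℕ) (d : ℕ) (p : ℕ → ℝ[X])
    (hp : ∀ j ≤ d / 2, (p j).natDegree + 4 * j ≤ 2 * d)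
    (h : ∀ a b : ℕ, a + b ≤ d → ∑ j ∈ range (d / 2 + 1), (κ + (a : ℝ) + b) ^ j *
      (∏ l ∈ range (2 * j), (3 + 2 * (a : ℝ) + 3 * b + σ - 1 - l)) *
        (p j).eval (3 + 2 * (a : ℝ) + 3 * b) = 0) : ∀ j ≤ d / 2, p j = 0 := by
  refine unisolv (κ := κ) (σ := σ) d (d / 2) (by omega) p hp (fun a b hab => ?_)
  rw [← h a b hab]
  unfold FI kap nu
  rw [Finset.range_eq_Ico]
  refine Finset.sum_congr rfl (fun j _ => ?_)
  rw [Finset.range_eq_Ico]

/-- **Theorem U.** -/
theorem thmU (κ : ℝ) (d : ℕ) (p : ℕ → ℝ[X])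
    (hp : ∀ j ≤ d / 2, (p j).natDegree + 4 * j ≤ 2 * d)
    (h : ∀ a b : ℕ, a + b ≤ d → ∑ j ∈ range (d / 2 + 1), (κ + (a : ℝ) + b) ^ j *
      (∏ l ∈ range (2 * j), (3 + 2 * (a : ℝ) + 3 * b - l)) *
        (p j).eval (3 + 2 * (a : ℝ) + 3 * b) = 0) : ∀ j ≤ d / 2, p j = 0 := by
  refine thmUs κ 1 d p hp (fun a b hab => ?_)
  rw [← h a b hab]
  refine Finset.sum_congr rfl (fun j _ => ?_)
  congr 2
  refine Finset.prod_congr rfl (fun l _ => ?_)
  push_cast; ring

end Pool.Agent.SplU
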