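import Mathlib

/-!
# Difference operator `1 - 3 E_a + 2 E_b` on functions of lattice points and weights

Helper file for the unisolvence theorem `U` (spline project `MP_92924b_an`).
Lattice points `(a, b)`, `kap κ = κ + a + b` (any real `κ`), `nu = 3 + 2 a + 3 b`.
-/

namespace Pool.Agent.SplU

open Polynomial

/-- real functions on the lattice points of the quadrant -/
abbrev Fn := ℕ → ℕ → ℝ

/-- shift in the first coordinate -/
def Sa (u : Fn) : Fn := fun a b => u (a + 1) b

/-- shift in the second coordinate -/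
def Sb (u : Fn) : Fn := fun a b => u a (b + 1)

/-- the operator `1 - 3 Sa + 2 Sb` -/
def Lam (u : Fn) : Fn := fun a b => u a b - 3 * u (a + 1) b + 2 * u a (b + 1)

/-- the coordinate of weight two -/
def kap (κ : ℝ) : Fn := fun a b => κ + (a : ℝ) + b

/-- the coordinate of weight one -/
def nu : Fn := fun a b => 3 + 2 * (a : ℝ) + 3 * b

/-- functions of weight at most `w` -/
def P (κ : ℝ) (w : ℤ) : Submodule ℝ Fn :=
  Submodule.span ℝ {f | ∃ j l : ℕ, (2 * j + l : ℤ) ≤ w ∧ f = kap κ ^ j * nu ^ l}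

variable {κ : ℝ}

lemma mono_mem {w : ℤ} {j l : ℕ} (h : (2 * j + l : ℤ) ≤ w) : kap κ ^ j * nu ^ l ∈ P κ w :=
  Submodule.subset_span ⟨j, l, h, rfl⟩

lemma P_mono {w w' : ℤ} (h : w ≤ w') : P κ w ≤ P κ w' := by
  apply Submodule.span_mono
  rintro f ⟨j, l, hjl, rfl⟩
  exact ⟨j, l, hjl.trans h, rfl⟩

lemma P_neg {w : ℤ} (h : w < 0) : P κ w = ⊥ := by
  rw [P, Submodule.span_eq_bot]
  rintro f ⟨j, l, hjl, rfl⟩
  exfalso
  have : (0 : ℤ) ≤ 2 * j + l := by positivity
  omega

lemma kap_mul {w : ℤ} {f : Fn} (hf : f ∈ P κ w) : kap κ * f ∈ P κ (w + 2) := by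
  induction hf using Submodule.span_induction with
  | mem f h =>
    obtain ⟨j, l, hjl, rfl⟩ := h
    have : kap κ * (kap κ ^ j * nu ^ l) = kap κ ^ (j + 1) * nu ^ l := by ring
    rw [this]
    apply mono_mem
    push_cast
    omega
  | zero => simp
  | add f g _ _ hf hg => rw [mul_add]; exact Submodule.add_mem _ hf hg
  | smul c f _ hf => rw [mul_smul_comm]; exact Submodule.smul_mem _ _ hf

lemma nu_mul {w : ℤ} {f : Fn} (hf : f ∈ P κ w) : nu * f ∈ P κ (w + 1) := by
  induction hf using Submodule.span_induction with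
  | mem f h =>
    obtain ⟨j, l, hjl, rfl⟩ := h
    have : nu * (kap κ ^ j * nu ^ l) = kap κ ^ j * nu ^ (l + 1) := by ring
    rw [this]
    apply mono_mem
    push_cast
    omega
  | zero => simp
  | add f g _ _ hf hg => rw [mul_add]; exact Submodule.add_mem _ hf hg
  | smul c f _ hf => rw [mul_smul_comm]; exact Submodule.smul_mem _ _ hf

/-- good behaviour of a function with respect to the shifts -/
structure Good (κ : ℝ) (w : ℤ) (f : Fn) : Prop where
  self : f ∈ P κ w
  sa : Sa f ∈ P κ w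
  sb : Sb f ∈ P κ w
  dif : Sb f - Sa f ∈ P κ (w - 1)
  lam : Lam f ∈ P κ (w - 2)

lemma Good.kkap {w : ℤ} {f : Fn} (h : Good κ w f) : Good κ (w + 2) (kap κ * f) := by
  have e1 : Sa (SplU.kap κ * f) = SplU.kap κ * Sa f + Sa f := by
    funext a b; simp only [Sa, SplU.kap, Pi.mul_apply, Pi.add_apply]; push_cast; ring
  have e2 : Sb (SplU.kap κ * f) = SplU.kap κ * Sb f + Sb f := by
    funext a b; simp only [Sb, SplU.kap, Pi.mul_apply, Pi.add_apply]; push_cast; ring
  have e3 : Lam (SplU.kap κ * f) = SplU.kap κ * Lam f + (Lam f - f) := by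
    funext a b; simp only [Lam, SplU.kap, Pi.mul_apply, Pi.add_apply, Pi.sub_apply]; push_cast; ring
  refine ⟨kap_mul h.self, ?_, ?_, ?_, ?_⟩
  · rw [e1]; exact Submodule.add_mem _ (kap_mul h.sa) (P_mono (by omega) h.sa)
  · rw [e2]; exact Submodule.add_mem _ (kap_mul h.sb) (P_mono (by omega) h.sb)
  · rw [e1, e2]
    have : SplU.kap κ * Sb f + Sb f - (SplU.kap κ * Sa f + Sa f)
        = SplU.kap κ * (Sb f - Sa f) + (Sb f - Sa f) := by ring
    rw [this]
    exact Submodule.add_mem _ (P_mono (by omega) (kap_mul h.dif)) (P_mono (by omega) h.dif)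
  · rw [e3]
    exact Submodule.add_mem _ (P_mono (by omega) (kap_mul h.lam))
      (Submodule.sub_mem _ (P_mono (by omega) h.lam) (P_mono (by omega) h.self))

lemma Good.nu {w : ℤ} {f : Fn} (h : Good κ w f) : Good κ (w + 1) (nu * f) := by
  have e1 : Sa (SplU.nu * f) = SplU.nu * Sa f + (2 : ℝ) • Sa f := by
    funext a b; simp only [Sa, SplU.nu, Pi.mul_apply, Pi.add_apply, Pi.smul_apply, smul_eq_mul]
    push_cast; ring
  have e2 : Sb (SplU.nu * f) = SplU.nu * Sb f + (3 : ℝ) • Sb f := by
    funext a b; simp only [Sb, SplU.nu, Pi.mul_apply, Pi.add_apply, Pi.smul_apply, smul_eq_mul]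
    push_cast; ring
  have e3 : Lam (SplU.nu * f) = SplU.nu * Lam f + (6 : ℝ) • (Sb f - Sa f) := by
    funext a b
    simp only [Lam, Sa, Sb, SplU.nu, Pi.mul_apply, Pi.add_apply, Pi.sub_apply, Pi.smul_apply,
      smul_eq_mul]
    push_cast; ring
  refine ⟨nu_mul h.self, ?_, ?_, ?_, ?_⟩
  · rw [e1]
    exact Submodule.add_mem _ (nu_mul h.sa) (P_mono (by omega) (Submodule.smul_mem _ _ h.sa))
  · rw [e2]
    exact Submodule.add_mem _ (nu_mul h.sb) (P_mono (by omega) (Submodule.smul_mem _ _ h.sb))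
  · rw [e1, e2]
    have : SplU.nu * Sb f + (3 : ℝ) • Sb f - (SplU.nu * Sa f + (2 : ℝ) • Sa f)
        = SplU.nu * (Sb f - Sa f) + ((2 : ℝ) • (Sb f - Sa f) + Sb f) := by
      funext a b
      simp only [Pi.mul_apply, Pi.add_apply, Pi.sub_apply, Pi.smul_apply, smul_eq_mul]
      ring
    rw [this]
    exact Submodule.add_mem _ (P_mono (by omega) (nu_mul h.dif))
      (Submodule.add_mem _ (P_mono (by omega) (Submodule.smul_mem _ _ h.dif))
        (P_mono (by omega) h.sb))
  · rw [e3]
    exact Submodule.add_mem _ (P_mono (by omega) (nu_mul h.lam))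
      (P_mono (by omega) (Submodule.smul_mem _ _ h.dif))

lemma good_one : Good κ 0 (1 : Fn) := by
  have h1 : (1 : Fn) ∈ P κ 0 := by
    have := mono_mem (κ := κ) (w := 0) (j := 0) (l := 0) (by simp)
    simpa using this
  have e1 : Sa (1 : Fn) = 1 := by funext a b; simp [Sa]
  have e2 : Sb (1 : Fn) = 1 := by funext a b; simp [Sb]
  have e3 : Lam (1 : Fn) = 0 := by funext a b; simp [Lam]; norm_num
  refine ⟨h1, by rwa [e1], by rwa [e2], by simp [e1, e2], by simp [e3]⟩

lemma good_mono (j l : ℕ) : Good κ (2 * j + l) (kap κ ^ j * nu ^ l) := by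
  induction j with
  | zero =>
    induction l with
    | zero => simpa using good_one
    | succ l ih =>
      have := ih.nu
      have e : SplU.nu * (kap κ ^ 0 * SplU.nu ^ l) = kap κ ^ 0 * SplU.nu ^ (l + 1) := by ring
      rw [e] at this
      have e' : (2 * ((0 : ℕ) : ℤ) + ((l + 1 : ℕ) : ℤ)) = 2 * ((0 : ℕ) : ℤ) + (l : ℤ) + 1 := by
        push_cast; ring
      rw [e']; exact this
  | succ j ih =>
    have := ih.kkap
    have e : SplU.kap κ * (SplU.kap κ ^ j * SplU.nu ^ l) = SplU.kap κ ^ (j + 1) * SplU.nu ^ l := by ring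
    rw [e] at this
    have e' : (2 * ((j + 1 : ℕ) : ℤ) + (l : ℤ)) = 2 * (j : ℤ) + (l : ℤ) + 2 := by
      push_cast; ring
    rw [e']; exact this

lemma Lam_add (u v : Fn) : Lam (u + v) = Lam u + Lam v := by
  funext a b; simp only [Lam, Pi.add_apply]; ring

lemma Lam_smul (c : ℝ) (u : Fn) : Lam (c • u) = c • Lam u := by
  funext a b; simp only [Lam, Pi.smul_apply, smul_eq_mul]; ring

lemma Lam_zero : Lam (0 : Fn) = 0 := by
  funext a b; simp [Lam]

lemma Lam_mem {w : ℤ} {f : Fn} (hf : f ∈ P κ w) : Lam f ∈ P κ (w - 2) := by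
  induction hf using Submodule.span_induction with
  | mem f h =>
    obtain ⟨j, l, hjl, rfl⟩ := h
    exact P_mono (by omega) (good_mono j l).lam
  | zero => rw [Lam_zero]; exact Submodule.zero_mem _
  | add f g _ _ hf hg => rw [Lam_add]; exact Submodule.add_mem _ hf hg
  | smul c f _ hf => rw [Lam_smul]; exact Submodule.smul_mem _ _ hf

lemma Lam_iter_mem {w : ℤ} {f : Fn} (hf : f ∈ P κ w) (D : ℕ) : Lam^[D] f ∈ P κ (w - 2 * D) := by
  induction D with
  | zero => simpa using hf
  | succ D ih =>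
    rw [Function.iterate_succ_apply']
    have := Lam_mem ih
    refine P_mono ?_ this
    push_cast; omega

/-- functions of weight `< 2 D` are killed by `Lam^D` -/
theorem Lam_iter_zero {w : ℤ} {f : Fn} (hf : f ∈ P κ w) (D : ℕ) (h : w < 2 * D) :
    Lam^[D] f = 0 := by
  have h1 := Lam_iter_mem hf D
  rw [P_neg (by omega)] at h1
  simpa using h1

/-- locality of `Lam^D` -/
lemma Lam_iter_congr (D : ℕ) : ∀ (u v : Fn) (a b : ℕ),
    (∀ x y, x + y ≤ D → u (a + x) (b + y) = v (a + x) (b + y)) →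
    (Lam^[D] u) a b = (Lam^[D] v) a b := by
  induction D with
  | zero => intro u v a b h; simpa using h 0 0 (by simp)
  | succ D ih =>
    intro u v a b h
    rw [Function.iterate_succ_apply', Function.iterate_succ_apply']
    have h0 := ih u v a b (fun x y hxy => h x y (by omega))
    have h1 := ih u v (a + 1) b (fun x y hxy => by
      have := h (x + 1) y (by omega)
      rwa [show a + (x + 1) = a + 1 + x by ring] at this)
    have h2 := ih u v a (b + 1) (fun x y hxy => by
      have := h x (y + 1) (by omega)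
      rwa [show b + (y + 1) = b + 1 + y by ring] at this)
    simp only [Lam, h0, h1, h2]

/-- `Lam^D` commutes with translations -/
lemma Lam_iter_shift (D : ℕ) (u : Fn) (a b : ℕ) : ∀ x y : ℕ,
    (Lam^[D] (fun p q => u (a + p) (b + q))) x y = (Lam^[D] u) (a + x) (b + y) := by
  induction D with
  | zero => intro x y; rfl
  | succ D ih =>
    intro x y
    rw [Function.iterate_succ_apply', Function.iterate_succ_apply']
    simp only [Lam, ih, add_assoc]

lemma Lam_iter_zero_apply (D : ℕ) (u : Fn) (a b : ℕ)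
    (h : ∀ x y, x + y ≤ D → u (a + x) (b + y) = 0) : (Lam^[D] u) a b = 0 := by
  have h1 := Lam_iter_congr D u 0 a b (by simpa using h)
  rw [h1]
  have : Lam^[D] (0 : Fn) = 0 := by
    clear h h1
    induction D with
    | zero => rfl
    | succ D ih => rw [Function.iterate_succ_apply', ih, Lam_zero]
  rw [this]; rfl

/-- if only the corner value is non zero, `Lam^D` reproduces it -/
lemma Lam_iter_corner (D : ℕ) : ∀ (u : Fn) (a b : ℕ),
    (∀ x y, x + y ≤ D → (x, y) ≠ (0, 0) → u (a + x) (b + y) = 0) →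
    (Lam^[D] u) a b = u a b := by
  induction D with
  | zero => intro u a b h; rfl
  | succ D ih =>
    intro u a b h
    rw [Function.iterate_succ_apply']
    have h0 := ih u a b (fun x y hxy hne => h x y (by omega) hne)
    have h1 := Lam_iter_zero_apply D u (a + 1) b (fun x y hxy => by
      have := h (x + 1) y (by omega) (by simp)
      rwa [show a + (x + 1) = a + 1 + x by ring] at this)
    have h2 := Lam_iter_zero_apply D u a (b + 1) (fun x y hxy => by
      have := h x (y + 1) (by omega) (by simp)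
      rwa [show b + (y + 1) = b + 1 + y by ring] at this)
    simp only [Lam, h0, h1, h2]; ring

/-- polynomial functions `kap^j q(nu)` -/
lemma poly_mem {w : ℤ} (j : ℕ) (q : ℝ[X]) (h : (q.natDegree + 2 * j : ℤ) ≤ w) :
    (fun a b => kap κ a b ^ j * q.eval (nu a b)) ∈ P κ w := by
  have e : (fun a b => kap κ a b ^ j * q.eval (nu a b))
      = ∑ l ∈ Finset.range (q.natDegree + 1), q.coeff l • (kap κ ^ j * nu ^ l) := by
    funext a b
    rw [eval_eq_sum_range, Finset.mul_sum, Finset.sum_apply, Finset.sum_apply]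
    refine Finset.sum_congr rfl (fun l _ => ?_)
    simp only [Pi.smul_apply, Pi.mul_apply, Pi.pow_apply, smul_eq_mul]
    ring
  rw [e]
  refine Submodule.sum_mem _ (fun l hl => Submodule.smul_mem _ _ (mono_mem ?_))
  rw [Finset.mem_range] at hl
  omega

/-- multiplication with `nu - c` -/
lemma nu_sub_mul {w : ℤ} {f : Fn} (c : ℝ) (hf : f ∈ P κ w) :
    (fun a b => (nu a b - c) * f a b) ∈ P κ (w + 1) := by
  have e : (fun a b => (nu a b - c) * f a b) = nu * f - c • f := by
    funext a b; simp only [Pi.sub_apply, Pi.mul_apply, Pi.smul_apply, smul_eq_mul]; ring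
  rw [e]
  exact Submodule.sub_mem _ (nu_mul hf) (P_mono (by omega) (Submodule.smul_mem _ _ hf))

end Pool.Agent.SplU
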