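import Pool.Agent.SplU.Main

/-!
# Surjective form of theorem `U` and the statement `(Pi)`
-/

namespace Pool.Agent.SplU

open Polynomial Finset

lemma card_aux : ∀ d : ℕ, ∑ j ∈ range (d / 2 + 1), (2 * d - 4 * j + 1) = ∑ n ∈ range (d + 1), (n + 1)
  | 0 => by simp
  | 1 => by simp [Finset.sum_range_succ]
  | (d + 2) => by
    have ih := card_aux d
    rw [show (d + 2) / 2 + 1 = (d / 2 + 1) + 1 by omega, Finset.sum_range_succ']
    rw [Finset.sum_range_succ _ (d + 2), Finset.sum_range_succ _ (d + 1), ← ih]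
    have : ∀ j ∈ range (d / 2 + 1), 2 * (d + 2) - 4 * (j + 1) + 1 = 2 * d - 4 * j + 1 := by
      intro j hj; rw [Finset.mem_range] at hj; omega
    rw [Finset.sum_congr rfl this]
    omega

/-- surjective form of theorem `U` -/
theorem surjU (κ : ℝ) (d : ℕ) (v : ℕ → ℕ → ℝ) : ∃ p : ℕ → ℝ[X],
    (∀ j ≤ d / 2, (p j).natDegree + 4 * j ≤ 2 * d) ∧
    ∀ a b : ℕ, a + b ≤ d → ∑ j ∈ range (d / 2 + 1), (κ + (a : ℝ) + b) ^ j *
      (∏ l ∈ range (2 * j), (3 + 2 * (a : ℝ) + 3 * b - l)) *
        (p j).eval (3 + 2 * (a : ℝ) + 3 * b) = v a b := by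
  classical
  let I := (Σ j : Fin (d / 2 + 1), Fin (2 * d - 4 * (j : ℕ) + 1))
  let T := (Σ n : Fin (d + 1), Fin ((n : ℕ) + 1))
  let ka : T → ℝ := fun t => κ + (((t.1 : ℕ) - (t.2 : ℕ) : ℕ) : ℝ) + ((t.2 : ℕ) : ℝ)
  let nn : T → ℝ := fun t => 3 + 2 * (((t.1 : ℕ) - (t.2 : ℕ) : ℕ) : ℝ) + 3 * ((t.2 : ℕ) : ℝ)
  let M : Matrix T I ℝ := fun t js =>
    ka t ^ (js.1 : ℕ) * (∏ l ∈ range (2 * (js.1 : ℕ)), (nn t - l)) * nn t ^ (js.2 : ℕ)
  let pol : (I → ℝ) → ℕ → ℝ[X] := fun c j =>
    if h : j < d / 2 + 1 then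
      ∑ s : Fin (2 * d - 4 * j + 1), C (c ⟨⟨j, h⟩, s⟩) * X ^ (s : ℕ) else 0
  have hpol : ∀ c (t : T), (Matrix.mulVecLin M c) t
      = ∑ j ∈ range (d / 2 + 1), ka t ^ j * (∏ l ∈ range (2 * j), (nn t - l)) *
        (pol c j).eval (nn t) := by
    intro c t
    rw [Matrix.mulVecLin_apply, Matrix.mulVec, dotProduct, Fintype.sum_sigma,
      ← Fin.sum_univ_eq_sum_range (fun j => ka t ^ j * (∏ l ∈ range (2 * j), (nn t - l)) *
        (pol c j).eval (nn t))]
    refine Finset.sum_congr rfl (fun j _ => ?_)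
    simp only [pol, dif_pos j.2, eval_finsetSum, eval_mul, eval_C, eval_pow, eval_X,
      Finset.mul_sum]
    refine Finset.sum_congr rfl (fun s _ => ?_)
    simp only [M]
    ring
  have hdeg : ∀ c, ∀ j ≤ d / 2, (pol c j).natDegree + 4 * j ≤ 2 * d := by
    intro c j hj
    have h1 : (pol c j).natDegree ≤ 2 * d - 4 * j := by
      simp only [pol, dif_pos (Nat.lt_succ_of_le hj)]
      apply natDegree_sum_le_of_forall_le
      intro s _
      refine (natDegree_C_mul_X_pow_le _ _).trans ?_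
      have := s.2
      omega
    omega
  have hinj : Function.Injective (Matrix.mulVecLin M) := by
    rw [← LinearMap.ker_eq_bot, LinearMap.ker_eq_bot']
    intro c hc
    have h0 := thmU κ d (pol c) (hdeg c) (by
      intro a b hab
      have h1 := hpol c ⟨⟨a + b, by omega⟩, ⟨b, by simp only; omega⟩⟩
      rw [hc] at h1
      simp only [ka, nn, Nat.add_sub_cancel] at h1
      rw [← h1]; rfl)
    funext js
    obtain ⟨j, s⟩ := js
    have h1 := h0 j (by have := j.2; omega)
    have h2 : (pol c j).coeff s = c ⟨j, s⟩ := by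
      simp only [pol, dif_pos j.2, finsetSum_coeff, coeff_C_mul, coeff_X_pow]
      rw [Finset.sum_eq_single s]
      · simp
      · intro b _ hb
        rw [if_neg (fun h => hb (Fin.ext h.symm)), mul_zero]
      · intro h; exact absurd (Finset.mem_univ _) h
    rw [← h2, h1, coeff_zero]; rfl
  have hcard : Fintype.card I = Fintype.card T := by
    rw [Fintype.card_sigma, Fintype.card_sigma]
    simp only [Fintype.card_fin]
    rw [Fin.sum_univ_eq_sum_range (fun j => 2 * d - 4 * j + 1),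
      Fin.sum_univ_eq_sum_range (fun n => n + 1), card_aux]
  have hsurj : Function.Surjective (Matrix.mulVecLin M) := by
    rw [← LinearMap.injective_iff_surjective_of_finrank_eq_finrank]
    · exact hinj
    · rw [Module.finrank_fintype_fun_eq_card, Module.finrank_fintype_fun_eq_card, hcard]
  obtain ⟨c, hc⟩ := hsurj (fun t => v ((t.1 : ℕ) - (t.2 : ℕ)) t.2)
  refine ⟨pol c, hdeg c, fun a b hab => ?_⟩
  have h1 := hpol c ⟨⟨a + b, by omega⟩, ⟨b, by simp only; omega⟩⟩
  rw [hc] at h1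
  simp only [ka, nn, Nat.add_sub_cancel] at h1
  exact h1.symm

/-- Functions `∑_j (-j')^j N(N-1)…(N-2j+1) p_j(N)`; prescribe the polynomial on the line `j' = 0`
and the values at the points `j' = d - 1 - a - b`, `N = 5 + 2a + 3b`, `a + b ≤ d - 2`. -/
theorem surjPi (d : ℕ) (r : ℝ[X]) (hr : r.natDegree ≤ 2 * d) (v : ℕ → ℕ → ℝ) :
    ∃ p : ℕ → ℝ[X], (∀ j ≤ d / 2, (p j).natDegree + 4 * j ≤ 2 * d) ∧ p 0 = r ∧
    ∀ a b : ℕ, a + b + 2 ≤ d → ∑ j ∈ range (d / 2 + 1), ((1 - (d : ℝ)) + (a : ℝ) + b) ^ j *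
      (∏ l ∈ range (2 * j), (5 + 2 * (a : ℝ) + 3 * b - l)) *
        (p j).eval (5 + 2 * (a : ℝ) + 3 * b) = v a b := by
  rcases Nat.lt_or_ge d 2 with hd | hd
  · refine ⟨fun j => if j = 0 then r else 0, ?_, by simp, ?_⟩
    · intro j hj
      have : j = 0 := by omega
      subst this
      simpa using hr
    · intro a b hab; omega
  · obtain ⟨e, rfl⟩ : ∃ e, d = e + 2 := ⟨d - 2, by omega⟩
    obtain ⟨p, hp, hpe⟩ := surjU (1 - ((e + 2 : ℕ) : ℝ)) e (fun a b =>
      (v a b - r.eval (5 + 2 * (a : ℝ) + 3 * b)) /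
        ((((1 - ((e + 2 : ℕ) : ℝ)) + (a : ℝ) + b)) * (5 + 2 * (a : ℝ) + 3 * b) *
          (4 + 2 * (a : ℝ) + 3 * b)))
    refine ⟨fun j => if j = 0 then r else (p (j - 1)).comp (X - C 2), ?_, by simp, ?_⟩
    · intro j hj
      rcases Nat.eq_zero_or_pos j with rfl | hj0
      · simpa using hr
      · have hj0' : ¬ j = 0 := by omega
        show (if j = 0 then r else (p (j - 1)).comp (X - C 2)).natDegree + 4 * j ≤ _
        rw [if_neg hj0', natDegree_comp, natDegree_X_sub_C, mul_one]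
        have := hp (j - 1) (by omega)
        omega
    · intro a b hab
      rw [show (e + 2) / 2 + 1 = (e / 2 + 1) + 1 by omega, Finset.sum_range_succ']
      have h1 := hpe a b (by omega)
      have hk : (1 - ((e + 2 : ℕ) : ℝ)) + (a : ℝ) + b ≠ 0 := by
        have : (a : ℝ) + b ≤ e := by exact_mod_cast (by omega : a + b ≤ e)
        push_cast
        intro h; linarith
      have h5 : (5 + 2 * (a : ℝ) + 3 * b) ≠ 0 := by positivity
      have h4 : (4 + 2 * (a : ℝ) + 3 * b) ≠ 0 := by positivity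
      have h2 : ∀ j ∈ range (e / 2 + 1),
          ((1 - ((e + 2 : ℕ) : ℝ)) + (a : ℝ) + b) ^ (j + 1) *
          (∏ l ∈ range (2 * (j + 1)), (5 + 2 * (a : ℝ) + 3 * b - l)) *
          ((fun j => if j = 0 then r else (p (j - 1)).comp (X - C 2)) (j + 1)).eval
            (5 + 2 * (a : ℝ) + 3 * b)
          = (((1 - ((e + 2 : ℕ) : ℝ)) + (a : ℝ) + b) * (5 + 2 * (a : ℝ) + 3 * b) *
            (4 + 2 * (a : ℝ) + 3 * b)) *
            (((1 - ((e + 2 : ℕ) : ℝ)) + (a : ℝ) + b) ^ j *
            (∏ l ∈ range (2 * j), (3 + 2 * (a : ℝ) + 3 * b - l)) *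
            (p j).eval (3 + 2 * (a : ℝ) + 3 * b)) := by
        intro j _
        simp only [Nat.add_sub_cancel, if_neg (Nat.succ_ne_zero j), eval_comp, eval_sub, eval_X,
          eval_C]
        rw [show 2 * (j + 1) = (2 * j + 1) + 1 by ring, Finset.prod_range_succ',
          Finset.prod_range_succ']
        have e1 : ∀ l ∈ range (2 * j), (5 + 2 * (a : ℝ) + 3 * b - ((l + 1 + 1 : ℕ) : ℝ))
            = (3 + 2 * (a : ℝ) + 3 * b - l) := by
          intro l _; push_cast; ring
        rw [Finset.prod_congr rfl e1]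
        rw [show (5 + 2 * (a : ℝ) + 3 * b - 2) = 3 + 2 * (a : ℝ) + 3 * b by ring]
        push_cast
        ring
      rw [Finset.sum_congr rfl h2, ← Finset.mul_sum, h1]
      simp only [if_true, pow_zero, Nat.mul_zero, Finset.range_zero, Finset.prod_empty, one_mul]
      field_simp
      ring

/-- falling factorials span: a functional which kills `N^{\underline v}`, `v0 ≤ v ≤ v1`, kills
`N^{\underline{v0}} q(N)` for `deg q ≤ v1 - v0` -/
lemma fall_span {ι : Type*} (s : Finset ι) (x : ι → ℝ) (N : ι → ℝ) (v1 : ℕ) :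
    ∀ (l v : ℕ), v + l ≤ v1 →
    (∀ w, v ≤ w → w ≤ v1 → ∑ i ∈ s, x i * ∏ t ∈ range w, (N i - t) = 0) →
    ∑ i ∈ s, x i * ((∏ t ∈ range v, (N i - t)) * N i ^ l) = 0 := by
  intro l
  induction l with
  | zero =>
    intro v hv h
    simpa using h v le_rfl (by omega)
  | succ l ih =>
    intro v hv h
    have h1 := ih (v + 1) (by omega) (fun w hw hw' => h w (by omega) hw')
    have h2 := ih v (by omega) h
    have e : ∑ i ∈ s, x i * ((∏ t ∈ range v, (N i - t)) * N i ^ (l + 1))
        = ∑ i ∈ s, x i * ((∏ t ∈ range (v + 1), (N i - t)) * N i ^ l)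
          + v * ∑ i ∈ s, x i * ((∏ t ∈ range v, (N i - t)) * N i ^ l) := by
      rw [Finset.mul_sum, ← Finset.sum_add_distrib]
      refine Finset.sum_congr rfl (fun i _ => ?_)
      rw [Finset.prod_range_succ]
      ring
    rw [e, h1, h2]; simp

lemma fall_span_poly {ι : Type*} (s : Finset ι) (x : ι → ℝ) (N : ι → ℝ) (v1 v : ℕ) (q : ℝ[X])
    (hq : v + q.natDegree ≤ v1)
    (h : ∀ w, v ≤ w → w ≤ v1 → ∑ i ∈ s, x i * ∏ t ∈ range w, (N i - t) = 0) :
    ∑ i ∈ s, x i * ((∏ t ∈ range v, (N i - t)) * q.eval (N i)) = 0 := by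
  have e : ∑ i ∈ s, x i * ((∏ t ∈ range v, (N i - t)) * q.eval (N i))
      = ∑ l ∈ range (q.natDegree + 1), q.coeff l *
          ∑ i ∈ s, x i * ((∏ t ∈ range v, (N i - t)) * N i ^ l) := by
    simp_rw [Finset.mul_sum]
    rw [Finset.sum_comm]
    refine Finset.sum_congr rfl (fun i _ => ?_)
    rw [eval_eq_sum_range, Finset.mul_sum, Finset.mul_sum]
    refine Finset.sum_congr rfl (fun l _ => by ring)
  rw [e]
  refine Finset.sum_eq_zero (fun l hl => ?_)
  rw [Finset.mem_range] at hl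
  rw [fall_span s x N v1 l v (by omega) h, mul_zero]

/-- **Statement `(Pi)`**, functional form. `x` is a weight on a finite set of points `(j, N)`:
the points `j + m ≤ g - 2`, `N = 2 g + 1 + m - 2 j`, and the point `(0, 2 g)`. If the functional
kills `j(j-1)…(j-i+1) N(N-1)…(N-v+1)` for `2 i ≤ v ≤ 2 g - 2 - 2 i`, then it is zero. -/
theorem thmPi (g : ℕ) (hg : 1 ≤ g) (x : ℕ → ℕ → ℝ) (x0 : ℝ)
    (h : ∀ i v : ℕ, 2 * i ≤ v → v + 2 * i + 2 ≤ 2 * g →
      (if i = 0 then x0 * ∏ t ∈ range v, (2 * (g : ℝ) - t) else 0) +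
        ∑ jm ∈ (range g ×ˢ range g).filter (fun jm => jm.1 + jm.2 + 2 ≤ g),
          x jm.1 jm.2 * ((∏ t ∈ range i, ((jm.1 : ℝ) - t)) *
            ∏ t ∈ range v, ((2 * (g : ℝ) + 1 + jm.2 - 2 * jm.1) - t)) = 0) :
    x0 = 0 ∧ ∀ j m, j + m + 2 ≤ g → x j m = 0 := by
  classical
  set S := (range g ×ˢ range g).filter (fun jm => jm.1 + jm.2 + 2 ≤ g) with hS
  -- index type with the extra point
  let s : Finset (Option (ℕ × ℕ)) := insertNone S
  let y : Option (ℕ × ℕ) → ℝ := fun o => o.elim x0 (fun jm => x jm.1 jm.2)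
  let J : Option (ℕ × ℕ) → ℝ := fun o => o.elim 0 (fun jm => (jm.1 : ℝ))
  let NN : Option (ℕ × ℕ) → ℝ := fun o =>
    o.elim (2 * (g : ℝ)) (fun jm => 2 * (g : ℝ) + 1 + jm.2 - 2 * jm.1)
  have hsum : ∀ f : ℝ → ℝ → ℝ, ∑ o ∈ s, y o * f (J o) (NN o)
      = x0 * f 0 (2 * (g : ℝ)) + ∑ jm ∈ S, x jm.1 jm.2 * f (jm.1 : ℝ)
          (2 * (g : ℝ) + 1 + jm.2 - 2 * jm.1) := by
    intro f
    simp only [s, Finset.sum_insertNone, y, J, NN, Option.elim]
  -- step 1 : all functions of the space are killed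
  have h1 : ∀ i v : ℕ, 2 * i ≤ v → v + 2 * i + 2 ≤ 2 * g →
      ∑ o ∈ s, y o * ((∏ t ∈ range i, (J o - t)) * ∏ t ∈ range v, (NN o - t)) = 0 := by
    intro i v hiv hvg
    rw [hsum (fun a b => (∏ t ∈ range i, (a - t)) * ∏ t ∈ range v, (b - t))]
    refine Eq.trans ?_ (h i v hiv hvg)
    congr 1
    rcases Nat.eq_zero_or_pos i with rfl | hi
    · simp
    · rw [if_neg (by omega)]
      have : ∏ t ∈ range i, ((0 : ℝ) - t) = 0 :=
        Finset.prod_eq_zero (Finset.mem_range.2 hi) (by simp)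
      rw [this, zero_mul, mul_zero]
  have h2 : ∀ i v : ℕ, 2 * i ≤ v → v + 2 * i + 2 ≤ 2 * g →
      ∑ o ∈ s, y o * (J o ^ i * ∏ t ∈ range v, (NN o - t)) = 0 := by
    intro i v hiv hvg
    have h3 := fall_span s (fun o => y o * ∏ t ∈ range v, (NN o - t)) J i i 0 (by omega)
      (by
        intro w _ hw
        have := h1 w v (by omega) (by omega)
        refine Eq.trans ?_ this
        refine Finset.sum_congr rfl (fun o _ => by ring))
    refine Eq.trans ?_ h3
    refine Finset.sum_congr rfl (fun o _ => ?_)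
    rw [Finset.range_zero, Finset.prod_empty]; ring
  have h3 : ∀ i (q : ℝ[X]), q.natDegree + 4 * i + 2 ≤ 2 * g →
      ∑ o ∈ s, y o * (J o ^ i * ((∏ t ∈ range (2 * i), (NN o - t)) * q.eval (NN o))) = 0 := by
    intro i q hq
    have := fall_span_poly s (fun o => y o * J o ^ i) NN (2 * g - 2 - 2 * i) (2 * i) q (by omega)
      (by
        intro w hw hw'
        have := h2 i w hw (by omega)
        refine Eq.trans ?_ this
        refine Finset.sum_congr rfl (fun o _ => by ring))
    refine Eq.trans ?_ this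
    refine Finset.sum_congr rfl (fun o _ => by ring)
  obtain ⟨d, rfl⟩ : ∃ d, g = d + 1 := ⟨g - 1, by omega⟩
  -- step 2 : use functions with prescribed values
  have key : ∀ (r : ℝ[X]) (v : ℕ → ℕ → ℝ), r.natDegree ≤ 2 * d →
      x0 * r.eval (2 * ((d + 1 : ℕ) : ℝ)) + ∑ jm ∈ S, x jm.1 jm.2 *
        (if jm.1 = 0 then r.eval (2 * ((d + 1 : ℕ) : ℝ) + 1 + jm.2 - 2 * jm.1) else
          v (d - 1 - jm.1 - jm.2) jm.2) = 0 := by
    intro r v hr
    obtain ⟨p, hp, hp0, hpe⟩ := surjPi d r hr v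
    have h4 : ∑ j ∈ range (d / 2 + 1), (-1 : ℝ) ^ j * ∑ o ∈ s, y o *
        (J o ^ j * ((∏ t ∈ range (2 * j), (NN o - t)) * (p j).eval (NN o))) = 0 := by
      refine Finset.sum_eq_zero (fun j hj => ?_)
      rw [Finset.mem_range] at hj
      have := hp j (by omega)
      rw [h3 j (p j) (by omega), mul_zero]
    have h5 : ∑ o ∈ s, y o * (∑ j ∈ range (d / 2 + 1), (- J o) ^ j *
        (∏ t ∈ range (2 * j), (NN o - t)) * (p j).eval (NN o)) = 0 := by
      refine Eq.trans ?_ h4
      simp_rw [Finset.mul_sum]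
      rw [Finset.sum_comm]
      refine Finset.sum_congr rfl (fun j _ => Finset.sum_congr rfl (fun o _ => ?_))
      rw [neg_pow (J o)]; ring
    rw [hsum (fun a b => ∑ j ∈ range (d / 2 + 1), (- a) ^ j *
        (∏ t ∈ range (2 * j), (b - t)) * (p j).eval b)] at h5
    have hz : ∀ b : ℝ, ∑ j ∈ range (d / 2 + 1), (-(0 : ℝ)) ^ j *
        (∏ t ∈ range (2 * j), (b - t)) * (p j).eval b = r.eval b := by
      intro b
      rw [Finset.sum_range_succ', Finset.sum_eq_zero]
      · simp [hp0]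
      · intro j _
        simp
    rw [hz] at h5
    refine Eq.trans ?_ h5
    congr 1
    refine Finset.sum_congr rfl (fun jm hjm => ?_)
    rw [hS, Finset.mem_filter] at hjm
    obtain ⟨_, hjm⟩ := hjm
    obtain ⟨j, m⟩ := jm
    simp only at hjm ⊢
    congr 1
    split_ifs with hj
    · subst hj
      have := hz (2 * ((d + 1 : ℕ) : ℝ) + 1 + m - 2 * ((0 : ℕ) : ℝ))
      rw [← this]
      simp
    · have h6 := hpe (d - 1 - j - m) m (by omega)
      rw [← h6]
      have e1 : ((d - 1 - j - m : ℕ) : ℝ) = (d : ℝ) - 1 - j - m := by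
        rw [Nat.cast_sub (by omega), Nat.cast_sub (by omega), Nat.cast_sub (by omega)]
        simp
      rw [e1]
      refine Finset.sum_congr rfl (fun t _ => ?_)
      have e2 : (1 - (d : ℝ)) + ((d : ℝ) - 1 - j - m) + m = - (j : ℝ) := by ring
      have e3 : 5 + 2 * ((d : ℝ) - 1 - j - m) + 3 * m = 2 * ((d + 1 : ℕ) : ℝ) + 1 + m - 2 * j := by
        push_cast; ring
      rw [e2, e3]
  -- interpolation polynomials on the row `j = 0`
  have hx : x0 = 0 := by
    have h4 := key (∏ t ∈ range d, (X - C (2 * ((d + 1 : ℕ) : ℝ) + 1 + t))) (fun _ _ => 0) (by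
      rw [natDegree_prod_of_monic _ _ (fun t _ => monic_X_sub_C _)]
      simp only [natDegree_X_sub_C, Finset.sum_const, Finset.card_range, smul_eq_mul, mul_one]
      omega)
    rw [Finset.sum_eq_zero, add_zero] at h4
    · rcases mul_eq_zero.1 h4 with h5 | h5
      · exact h5
      · exfalso
        rw [eval_prod, Finset.prod_eq_zero_iff] at h5
        obtain ⟨t, _, ht⟩ := h5
        simp only [eval_sub, eval_X, eval_C] at ht
        have : (0 : ℝ) ≤ t := Nat.cast_nonneg t
        linarith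
    · intro jm hjm
      rw [hS, Finset.mem_filter] at hjm
      split_ifs with hj
      · rw [eval_prod, Finset.prod_eq_zero (i := jm.2), mul_zero]
        · rw [Finset.mem_range]; omega
        · rw [hj]; simp
      · rw [mul_zero]
  refine ⟨hx, ?_⟩
  intro j m hjm
  have hmem : (j, m) ∈ S := by
    rw [hS, Finset.mem_filter, Finset.mem_product, Finset.mem_range, Finset.mem_range]
    simp only
    omega
  rcases Nat.eq_zero_or_pos j with rfl | hj
  · have h4 := key (∏ t ∈ (range d).erase m, (X - C (2 * ((d + 1 : ℕ) : ℝ) + 1 + t)))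
      (fun _ _ => 0) (by
      rw [natDegree_prod_of_monic _ _ (fun t _ => monic_X_sub_C _)]
      simp only [natDegree_X_sub_C, Finset.sum_const, smul_eq_mul, mul_one]
      have := Finset.card_erase_le (s := range d) (a := m)
      rw [Finset.card_range] at this
      omega)
    rw [hx, zero_mul, zero_add, Finset.sum_eq_single (0, m)] at h4
    · simp only [if_true] at h4
      rcases mul_eq_zero.1 h4 with h5 | h5
      · exact h5
      · exfalso
        rw [eval_prod, Finset.prod_eq_zero_iff] at h5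
        obtain ⟨t, ht, ht'⟩ := h5
        simp only [eval_sub, eval_X, eval_C, Nat.cast_zero, mul_zero, sub_zero] at ht'
        have : (m : ℝ) = t := by linarith
        have : m = t := by exact_mod_cast this
        exact (Finset.mem_erase.1 ht).1 this.symm
    · intro jm hjm' hne
      rw [hS, Finset.mem_filter] at hjm'
      split_ifs with hj
      · rw [eval_prod, Finset.prod_eq_zero (i := jm.2), mul_zero]
        · rw [Finset.mem_erase, Finset.mem_range]
          refine ⟨fun h => hne (Prod.ext hj h), by omega⟩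
        · rw [hj]; simp
      · rw [mul_zero]
    · intro h; exact absurd hmem h
  · have h4 := key 0 (fun a b => if a = d - 1 - j - m ∧ b = m then 1 else 0) (by simp)
    rw [hx, zero_mul, zero_add, Finset.sum_eq_single (j, m)] at h4
    · simp only at h4
      rw [if_neg (by omega)] at h4
      simpa using h4
    · intro jm hjm' hne
      rw [hS, Finset.mem_filter] at hjm'
      split_ifs with hj0 hcond
      · simp
      · exfalso
        apply hne
        obtain ⟨c1, c2⟩ := hcond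
        have : jm.1 = j := by omega
        exact Prod.ext this c2
      · rw [mul_zero]
    · intro h; exact absurd hmem h

end Pool.Agent.SplU
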